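import Pool.Agent.TH145.GC.Scale
import Pool.Agent.TH145.MG.FinV

/-!
Rational and integral points on generic log complete intersections in projective varieties.
-/

set_option autoImplicit false

open MvPolynomial Pool.Agent.W602.GT LinearAlgebra.Projectivization Pool.Agent.TH145.GH
open Pool.Agent.TH145.MG (DimLE)

namespace Pool.Agent.TH145.GC

/-- Projective space of dimension `n` has dimension at most `n`. -/
theorem dimLE_univ (k : Type) [Field k] (n : ℕ) :
    DimLE k (∅ : Set (MvPolynomial (Fin (n + 1)) k)) n := by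
  classical
  intro Ω _ _ x hx0 _
  obtain ⟨l, hl⟩ := Function.ne_iff.1 hx0
  have hl : x l ≠ 0 := hl
  obtain ⟨S, hS⟩ : ∃ S : Set Ω, S = (fun j => x j / x l) '' {j | j ≠ l} := ⟨_, rfl⟩
  have h1 : coords k x = IntermediateField.adjoin k S := by
    apply le_antisymm
    · unfold coords
      rw [IntermediateField.adjoin_le_iff]
      rintro z ⟨i, j, hj, rfl⟩
      have h2 : ∀ i, x i / x l ∈ IntermediateField.adjoin k S := by
        intro i
        by_cases hi : i = l
        · rw [hi, div_self hl]; exact one_mem _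
        · apply IntermediateField.subset_adjoin
          rw [hS]
          exact ⟨i, hi, rfl⟩
      have h3 : x i / x j = (x i / x l) / (x j / x l) := by field_simp
      rw [SetLike.mem_coe, h3]
      exact div_mem (h2 i) (h2 j)
    · rw [IntermediateField.adjoin_le_iff, hS]
      rintro z ⟨j, -, rfl⟩
      exact IntermediateField.subset_adjoin _ _ ⟨j, l, hl, rfl⟩
  have h2 : S.Finite := by
    rw [hS]
    exact (Set.toFinite _).image _
  have h3 : S.ncard ≤ n := by
    rw [hS]
    refine (Set.ncard_image_le (Set.toFinite _)).trans ?_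
    have h4 : {j : Fin (n + 1) | j ≠ l} = ((Finset.univ.erase l : Finset (Fin (n + 1))) :
        Set (Fin (n + 1))) := by
      ext j
      simp
    rw [h4, Set.ncard_coe_finset, Finset.card_erase_of_mem (Finset.mem_univ _), Finset.card_univ,
      Fintype.card_fin]
    omega
  -- the transcendence degree
  obtain ⟨y, hy⟩ : ∃ y : S → IntermediateField.adjoin k S, ∀ s, (y s : Ω) = s :=
    ⟨fun s => ⟨s, IntermediateField.subset_adjoin _ _ s.2⟩, fun _ => rfl⟩
  rw [h1]
  have h5 : IntermediateField.adjoin k (Set.range y) = ⊤ := by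
    rw [eq_top_iff]
    rintro ⟨w, hw⟩ -
    have h6 : (IntermediateField.adjoin k (Set.range y)).map
        (IntermediateField.adjoin k S).val = IntermediateField.adjoin k S := by
      rw [IntermediateField.adjoin_map]
      congr 1
      ext z
      constructor
      · rintro ⟨_, ⟨b, rfl⟩, rfl⟩
        change (y b : Ω) ∈ S
        rw [hy]
        exact b.2
      · intro hz
        exact ⟨_, ⟨⟨z, hz⟩, rfl⟩, hy _⟩
    have h7 : w ∈ (IntermediateField.adjoin k (Set.range y)).map
        (IntermediateField.adjoin k S).val := by rw [h6]; exact hw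
    obtain ⟨v, hv, hvw⟩ := h7
    have h8 : v = ⟨w, hw⟩ := Subtype.ext hvw
    rw [← h8]
    exact hv
  have h6 : Algebra.IsAlgebraic (Algebra.adjoin k (Set.range y))
      (IntermediateField.adjoin k S) := by
    rw [← IntermediateField.isAlgebraic_adjoin_iff_top, h5]
    exact ⟨fun x => isAlgebraic_algebraMap (⟨x, trivial⟩ :
      (⊤ : IntermediateField k (IntermediateField.adjoin k S)))⟩
  have h7 := Algebra.IsAlgebraic.trdeg_le_cardinalMk (R := k) (Set.range y)
  refine h7.trans ((Cardinal.mk_range_le).trans ?_)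
  rw [← Set.cast_ncard h2]
  exact_mod_cast h3

variable {k K : Type} [Field k] [Field K] [IsAlgClosed K] [CharZero K] [Algebra k K] {n m : ℕ}
  {A : Type} [Fintype A] {d : A → ℕ}

/-- The points of projective space with coordinates in the field of fractions of `R` that lie on `V`
and on `F a = 0` for `a` in `C`, and that are integral over `R` with respect to the hypersurfaces
`F a = 0` of degree `d a` for all `a` not in `C`: the values of the functions `x_i ^ d_a / F_a` at
the point lie in `R`. -/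
def LogInt {k : Type} [Field k] [Algebra k K] (V : Set (MvPolynomial (Fin (n + 1)) k))
    (F : A → MvPolynomial (Fin (n + 1)) K) (d : A → ℕ) (C : Finset A) (R : Subring K) :
    Set (ℙ K (Fin (n + 1) → K)) :=
  {p | ∃ (x : Fin (n + 1) → K) (hx : x ≠ 0), p = Projectivization.mk K x hx ∧
    (∀ i, x i ∈ Subfield.closure (R : Set K)) ∧ (∀ f ∈ V, aeval x f = 0) ∧
    (∀ a ∈ C, eval x (F a) = 0) ∧
    ∀ a, a ∉ C → eval x (F a) ≠ 0 ∧ ∀ i, x i ^ d a / eval x (F a) ∈ R}

/-- The points over a finitely generated ring. -/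
theorem fin_proj (C : Finset A) (hd : 2 * m + 2 ≤ ∑ a, d a + C.card)
    (V : Set (MvPolynomial (Fin (n + 1)) (algebraicClosure k K)))
    (hVh : ∀ f ∈ V, ∃ e, f.IsHomogeneous e) (hV : DimLE (algebraicClosure k K) V m)
    (F : A → MvPolynomial (Fin (n + 1)) K) (hF : ∀ a, (F a).IsHomogeneous (d a))
    (I0 : A → Fin (n + 1) →₀ ℕ) (h0 : ∀ a, (F a).coeff (I0 a) ≠ 0)
    (hind : AlgebraicIndependent k fun p : Rt d I0 =>
      (F p.1).coeff p.2.1 / (F p.1).coeff (I0 p.1)) (T : Finset K) :
    {p : ℙ K (Fin (n + 1) → K) | ∃ x : Fin (n + 1) → K, ((∀ f ∈ V, aeval x f = 0) ∧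
      (∀ a ∈ C, eval x (F a) = 0) ∧ (∀ a, a ∉ C → eval x (F a) ≠ 0) ∧
      ∀ a, a ∉ C → ∀ j, x j ^ d a / eval x (F a) ∈
        Subring.closure (Set.range (algebraMap (algebraicClosure k K) K) ∪ (T : Set K))) ∧
      (∀ i, x i ∈ IntermediateField.adjoin (algebraicClosure k K) (T : Set K)) ∧
      ∃ hx : x ≠ 0, p = Projectivization.mk K x hx}.Finite := by
  have hac : IsAlgClosed (algebraicClosure k K) := (algebraicClosure.isAlgClosure k K).isAlgClosed
  exact proj_finite (IntermediateField.adjoin (algebraicClosure k K) (T : Set K)).toSubfield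
    {x | (∀ f ∈ V, aeval x f = 0) ∧
      (∀ a ∈ C, eval x (F a) = 0) ∧ (∀ a, a ∉ C → eval x (F a) ≠ 0) ∧
      ∀ a, a ∉ C → ∀ j, x j ^ d a / eval x (F a) ∈
        Subring.closure (Set.range (algebraMap (algebraicClosure k K) K) ∪ (T : Set K))}
    (fun x hx b hb => by
      have h2 : ∀ a, eval (b • x) (F a) = b ^ d a * eval x (F a) := fun a =>
        eval_smul_hom (hF a) x b
      refine ⟨fun f hf => ?_, fun a ha => ?_, fun a ha => ?_, fun a ha i => ?_⟩
      · obtain ⟨e, he⟩ := hVh f hf
        rw [Pool.Agent.TH145.MG.aeval_smul he, hx.1 f hf, mul_zero]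
      · rw [h2, hx.2.1 a ha, mul_zero]
      · rw [h2]
        exact mul_ne_zero (pow_ne_zero _ hb) (hx.2.2.1 a ha)
      · have h3 : (b • x) i ^ d a / eval (b • x) (F a) = x i ^ d a / eval x (F a) := by
          rw [h2, Pi.smul_apply, smul_eq_mul, mul_pow,
            mul_div_mul_left _ _ (pow_ne_zero _ hb)]
        rw [h3]
        exact hx.2.2.2 a ha i) fun l0 =>
      fin_points' C hd V hV F hF I0 h0 hind.algebraicClosure T l0

/-- Generic log complete intersections: finiteness of integral points. -/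
theorem fin_integral (C : Finset A) (hd : 2 * m + 2 ≤ ∑ a, d a + C.card)
    (V : Set (MvPolynomial (Fin (n + 1)) (algebraicClosure k K)))
    (hVh : ∀ f ∈ V, ∃ e, f.IsHomogeneous e) (hV : DimLE (algebraicClosure k K) V m)
    (F : A → MvPolynomial (Fin (n + 1)) K) (hF : ∀ a, (F a).IsHomogeneous (d a))
    (I0 : A → Fin (n + 1) →₀ ℕ) (h0 : ∀ a, (F a).coeff (I0 a) ≠ 0)
    (hind : AlgebraicIndependent k fun p : Rt d I0 =>
      (F p.1).coeff p.2.1 / (F p.1).coeff (I0 p.1)) (T : Finset K) (R : Subring K)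
    (hR : R ≤ Subring.closure ((algebraicClosure k K : Set K) ∪ (T : Set K))) :
    (LogInt V F d C R).Finite := by
  have hR' : R ≤ Subring.closure
      (Set.range (algebraMap (algebraicClosure k K) K) ∪ (T : Set K)) := by
    refine hR.trans (Subring.closure_mono (Set.union_subset_union_left _ ?_))
    intro x hx
    exact ⟨⟨x, hx⟩, rfl⟩
  have hRf : Subfield.closure (R : Set K) ≤
      (IntermediateField.adjoin (algebraicClosure k K) (T : Set K)).toSubfield := by
    rw [Subfield.closure_le]
    refine Set.Subset.trans hR' ?_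
    have h1 : Subring.closure (Set.range (algebraMap (algebraicClosure k K) K) ∪ (T : Set K)) ≤
        (IntermediateField.adjoin (algebraicClosure k K) (T : Set K)).toSubfield.toSubring := by
      rw [Subring.closure_le]
      rintro x (⟨r, rfl⟩ | hx)
      · exact (IntermediateField.adjoin (algebraicClosure k K) (T : Set K)).algebraMap_mem r
      · exact IntermediateField.subset_adjoin _ _ hx
    exact h1
  refine (fin_proj C hd V hVh hV F hF I0 h0 hind T).subset ?_
  rintro p ⟨x, hx, hp, hxR, hxV, hxC, hxs⟩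
  exact ⟨x, ⟨hxV, hxC, fun a ha => (hxs a ha).1, fun a ha i => hR' ((hxs a ha).2 i)⟩,
    fun i => hRf (hxR i), hx, hp⟩

/-- Generic complete intersections: finiteness of rational points. -/
theorem fin_rational (hd : 2 * m + 2 ≤ ∑ a, (d a + 1))
    (V : Set (MvPolynomial (Fin (n + 1)) (algebraicClosure k K)))
    (hVh : ∀ f ∈ V, ∃ e, f.IsHomogeneous e) (hV : DimLE (algebraicClosure k K) V m)
    (F : A → MvPolynomial (Fin (n + 1)) K) (hF : ∀ a, (F a).IsHomogeneous (d a))
    (I0 : A → Fin (n + 1) →₀ ℕ) (h0 : ∀ a, (F a).coeff (I0 a) ≠ 0)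
    (hind : AlgebraicIndependent k fun p : Rt d I0 =>
      (F p.1).coeff p.2.1 / (F p.1).coeff (I0 p.1))
    {ι : Type} (G : ι → MvPolynomial (Fin (n + 1)) K)
    (hGV : ∀ f ∈ V, ∃ i, G i = map (algebraMap (algebraicClosure k K) K) f)
    (hGF : ∀ a, ∃ i, G i = F a) (T : Finset K) :
    {p : ℙ K (Fin (n + 1) → K) | ∃ x ∈ Cone G,
      (∀ i, x i ∈ IntermediateField.adjoin (algebraicClosure k K) (T : Set K)) ∧
      ∃ hx : x ≠ 0, p = Projectivization.mk K x hx}.Finite := by
  classical
  have hd' : 2 * m + 2 ≤ ∑ a, d a + (Finset.univ : Finset A).card := by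
    rw [Finset.sum_add_distrib, Finset.sum_const, smul_eq_mul, mul_one] at hd
    exact hd
  refine (fin_proj Finset.univ hd' V hVh hV F hF I0 h0 hind T).subset ?_
  rintro p ⟨x, hxC, hxT, hx, hp⟩
  refine ⟨x, ⟨fun f hf => ?_, fun a _ => ?_, fun a ha => absurd (Finset.mem_univ a) ha,
    fun a ha => absurd (Finset.mem_univ a) ha⟩, hxT, hx, hp⟩
  · obtain ⟨i, hi⟩ := hGV f hf
    have h1 := hxC.2 i
    rw [hi] at h1
    unfold Pool.Agent.W602.GT.val at h1
    rwa [aeval_map_algebraMap] at h1
  · obtain ⟨i, hi⟩ := hGF a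
    have h2 := hxC.2 i
    rw [hi] at h2
    unfold Pool.Agent.W602.GT.val at h2
    rwa [aeval_eq_eval] at h2

theorem mordellic_generic (hd : 2 * m + 2 ≤ ∑ a, (d a + 1))
    (V : Set (MvPolynomial (Fin (n + 1)) (algebraicClosure k K)))
    (hVh : ∀ f ∈ V, ∃ e, f.IsHomogeneous e) (hV : DimLE (algebraicClosure k K) V m)
    (F : A → MvPolynomial (Fin (n + 1)) K) (hF : ∀ a, (F a).IsHomogeneous (d a))
    (I0 : A → Fin (n + 1) →₀ ℕ) (h0 : ∀ a, (F a).coeff (I0 a) ≠ 0)
    (hind : AlgebraicIndependent k fun p : Rt d I0 =>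
      (F p.1).coeff p.2.1 / (F p.1).coeff (I0 p.1))
    {ι : Type} (G : ι → MvPolynomial (Fin (n + 1)) K)
    (hGV : ∀ f ∈ V, ∃ i, G i = map (algebraMap (algebraicClosure k K) K) f)
    (hGF : ∀ a, ∃ i, G i = F a) : Mordellic G := by
  refine ⟨∅, fun T _ => (fin_rational hd V hVh hV F hF I0 h0 hind G hGV hGF T).subset ?_⟩
  rintro p ⟨x, hxC, hxT, hx, hp⟩
  refine ⟨x, hxC, fun i => ?_, hx, hp⟩
  have h1 : Subfield.closure (T : Set K) ≤
      (IntermediateField.adjoin (algebraicClosure k K) (T : Set K)).toSubfield := by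
    rw [Subfield.closure_le]
    exact IntermediateField.subset_adjoin _ _
  exact h1 (hxT i)

end Pool.Agent.TH145.GC
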