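import Pool.Agent.TH145.GC.Rank
import Pool.Agent.TH145.GH.DataE
import Pool.Agent.TH145.GH.LossB

/-!
The data of the height inequality in the function fields of the variables.
-/

set_option autoImplicit false

open MvPolynomial FF Pool.Agent.W603.LV Pool.Agent.W603.PV Pool.Agent.TH145.GH

namespace Pool.Agent.TH145.GC

/-- Forms with coefficients in `E`, and derivations of `E` dual to their coefficients. -/
structure Gen {E : Type} [Field E] {n : ℕ} {A : Type} (F : A → MvPolynomial (Fin (n + 1)) E)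
    (dg : A → ℕ) (D : A → (Fin (n + 1) →₀ ℕ) → E → E) : Prop where
  hom : ∀ a, (F a).IsHomogeneous (dg a)
  dual : ∀ (a b : A) (I J : Fin (n + 1) →₀ ℕ), I.degree = dg a → J.degree = dg b →
    (a = b → I = J → D a I ((F b).coeff J) = 1) ∧
    ((a ≠ b ∨ I ≠ J) → D a I ((F b).coeff J) = 0)

section

variable {E : Type} [Field E] {n : ℕ} {A : Type} {F : A → MvPolynomial (Fin (n + 1)) E}
  {dg : A → ℕ} {D : A → (Fin (n + 1) →₀ ℕ) → E → E}

/-- The height data over a function field that contains `E`. -/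
theorem Gen.data (h : Gen F dg D)
    {κ L : Type} [Field κ] [Field L] [Algebra κ L] (φ : E →+* L)
    (D' : A → (Fin (n + 1) →₀ ℕ) → Derivation ℤ L L) (hD' : ∀ a I x, D' a I (φ x) = φ (D a I x))
    {e : Place κ L → ℤ} (he0 : ∀ P, 0 ≤ e P)
    (loss : ∀ P f, Ge P 0 f → ∀ a, ∀ I : Fin (n + 1) →₀ ℕ, I.degree = dg a →
      Ge P (-e P) (D' a I f))
    (fin : {P | e P ≠ 0}.Finite) :
    Data κ (fun a => map φ (F a)) dg D' e := by
  refine ⟨fun a => (h.hom a).map φ, fun a b I J hI hJ => ?_, he0, loss, fin⟩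
  rw [coeff_map, hD']
  exact ⟨fun hab hIJ => by rw [(h.dual a b I J hI hJ).1 hab hIJ, map_one],
    fun hIJ => by rw [(h.dual a b I J hI hJ).2 hIJ, map_zero]⟩

/-- The indices of the coefficients. -/
abbrev Cf (n : ℕ) {A : Type} (dg : A → ℕ) := Σ a : A, {I : Fin (n + 1) →₀ ℕ // I.degree = dg a}

theorem finite_cf [Finite A] (n : ℕ) (dg : A → ℕ) : Finite (Cf n dg) := by
  have := fun a => finite_deg n (dg a)
  infer_instance

theorem Gen.exists_data [Finite A] (h : Gen F dg D)
    {κ L : Type} [Field κ] [Field L] [Algebra κ L] [IsAlgClosed κ] [CharZero κ] [IsFF κ L]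
    (φ : E →+* L) (D' : A → (Fin (n + 1) →₀ ℕ) → Derivation ℤ L L)
    (hD' : ∀ a I x, D' a I (φ x) = φ (D a I x)) (hS : ∀ a I, Sem κ (D' a I)) :
    ∃ e : Place κ L → ℤ, Data κ (fun a => map φ (F a)) dg D' e := by
  classical
  have := finite_cf n dg
  obtain ⟨e, he0, hef, he⟩ := exists_loss_fin (k := κ) (K := L)
    (ι := Cf n dg) (D := fun p => D' p.1 p.2.1) (fun p => hS p.1 p.2.1)
  exact ⟨e, h.data φ D' hD' he0 (fun P f hf a I hI => he P f hf ⟨a, I, hI⟩) hef⟩

end

theorem Data.mono {k K : Type} [Field k] [Field K] [Algebra k K] {n : ℕ} {A : Type}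
    {F : A → MvPolynomial (Fin (n + 1)) K} {dg : A → ℕ}
    {D : A → (Fin (n + 1) →₀ ℕ) → Derivation ℤ K K} {e e' : Place k K → ℤ}
    (h : Data k F dg D e) (he : ∀ P, e P ≤ e' P) (hfin : {P | e' P ≠ 0}.Finite) :
    Data k F dg D e' :=
  ⟨h.hom, h.dual, fun P => (h.e_nonneg P).trans (he P),
    fun P f hf a I hI => (h.loss P f hf a I hI).mono (by have := he P; omega), hfin⟩

end Pool.Agent.TH145.GC
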