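import Pool.Agent.W603.LV.Loc

/-!
Orders of determinants whose rows are nearly tangent to divisors.
-/

set_option autoImplicit false

open FF Pool.Agent.W603.LV

namespace Pool.Agent.TH145.GC

variable {k L : Type} [Field k] [Field L] [Algebra k L]

theorem ge_det (P : Place k L) {R : Type} [Fintype R] [DecidableEq R] (M : Matrix R R L) {c : ℤ}
    (hM : ∀ i j, Ge P (-c) (M i j)) : Ge P (-(Fintype.card R * c)) M.det := by
  rw [Matrix.det_apply]
  refine Ge.sum _ _ fun σ _ => ?_
  have h1 : Ge P (-(Fintype.card R * c)) (∏ i, M (σ i) i) := by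
    have := Ge.prod (P := P) Finset.univ (fun i => M (σ i) i) (fun _ => -c) fun i _ => hM _ _
    rw [Finset.sum_const, Finset.card_univ, nsmul_eq_mul, mul_neg] at this
    exact this
  rcases Int.units_eq_one_or (Equiv.Perm.sign σ) with h | h
  · rw [h, one_smul]; exact h1
  · rw [h, Units.neg_smul, one_smul]; exact h1.neg

theorem det_zero_of_dot {R : Type} [Fintype R] [DecidableEq R] (v : R → R → L) (y : R → L)
    (hy : y ≠ 0) (h : ∀ i, ∑ j, y j * v i j = 0) : (Matrix.of v).det = 0 := by
  rw [← Matrix.exists_mulVec_eq_zero_iff]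
  refine ⟨y, hy, ?_⟩
  funext i
  rw [Matrix.mulVec, dotProduct, Pi.zero_apply, ← h i]
  exact Finset.sum_congr rfl fun j _ => by rw [Matrix.of_apply, mul_comm]

/-- The order of a determinant whose rows are nearly tangent to transversal divisors. -/
theorem det_est (P : Place k L) {R : Type} [Fintype R] [DecidableEq R] {B : Type}
    (y : B → R → L) (u : B → R → L) (γ : B → ℤ) (c : ℤ) (B' : Finset B) :
    (∀ b ∈ B', ∀ j, Ge P (-c) (u b j)) →
    (∀ b ∈ B', ∑ j, y b j * u b j ≠ 0 ∧ P.ord (∑ j, y b j * u b j) ≤ 0) →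
    (∀ b ∈ B', ∀ b' ∈ B', b ≠ b' → Ge P (γ b') (∑ j, y b' j * u b j)) →
    ∀ v : R → R → L, (∀ i j, Ge P (-c) (v i j)) →
      (∀ b ∈ B', ∀ i, Ge P (γ b) (∑ j, y b j * v i j)) →
      Ge P (∑ b ∈ B', γ b - Fintype.card R * c) (Matrix.of v).det := by
  classical
  induction B' using Finset.induction_on with
  | empty =>
    intro _ _ _ v hv _
    rw [Finset.sum_empty, zero_sub]
    exact ge_det P _ hv
  | insert b B'' hb ih =>
    intro hu huu hub v hv hvy
    obtain ⟨s, hs⟩ : ∃ s : R → L, ∀ i, s i = ∑ j, y b j * v i j := ⟨_, fun _ => rfl⟩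
    have hbm := Finset.mem_insert_self b B''
    have hyb : y b ≠ 0 := by
      intro h0
      apply (huu b hbm).1
      refine Finset.sum_eq_zero fun j _ => ?_
      rw [h0, Pi.zero_apply, zero_mul]
    by_cases hs0 : ∀ i, s i = 0
    · left
      exact det_zero_of_dot v (y b) hyb fun i => by rw [← hs]; exact hs0 i
    push Not at hs0
    obtain ⟨i0, hi0, hmin⟩ := Finset.exists_min_image (Finset.univ.filter fun i => s i ≠ 0)
      (fun i => P.ord (s i)) (by
        obtain ⟨i, hi⟩ := hs0
        exact ⟨i, Finset.mem_filter.2 ⟨Finset.mem_univ _, hi⟩⟩)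
    have hsi0 : s i0 ≠ 0 := (Finset.mem_filter.1 hi0).2
    obtain ⟨q, hq⟩ : ∃ q : R → L, ∀ i, q i = if i = i0 then 0 else s i / s i0 :=
      ⟨_, fun _ => rfl⟩
    have hqge : ∀ i, Ge P 0 (q i) := by
      intro i
      rw [hq]
      split_ifs with hi
      · exact Ge.zero
      · by_cases hsi : s i = 0
        · rw [hsi, zero_div]; exact Ge.zero
        · right
          rw [P.ord_div hsi hsi0]
          have := hmin i (Finset.mem_filter.2 ⟨Finset.mem_univ _, hsi⟩)
          omega
    obtain ⟨v1, hv1⟩ : ∃ v1 : R → R → L, ∀ i, v1 i = v i - q i • v i0 := ⟨_, fun _ => rfl⟩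
    have hqi0 : q i0 = 0 := by rw [hq, if_pos rfl]
    have hv1i0 : v1 i0 = v i0 := by rw [hv1, hqi0, zero_smul, sub_zero]
    have hdet1 : (Matrix.of v).det = (Matrix.of v1).det := by
      refine Matrix.det_eq_of_forall_row_eq_smul_add_const q i0 hqi0 fun i j => ?_
      rw [Matrix.of_apply, Matrix.of_apply, Matrix.of_apply, hv1i0, hv1]
      simp
    have hdot : ∀ (b' : B) (i : R), ∑ j, y b' j * v1 i j =
        ∑ j, y b' j * v i j - q i * ∑ j, y b' j * v i0 j := by
      intro b' i
      rw [Finset.mul_sum, ← Finset.sum_sub_distrib]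
      refine Finset.sum_congr rfl fun j _ => ?_
      rw [hv1, Pi.sub_apply, Pi.smul_apply, smul_eq_mul]
      ring
    have hdotb : ∀ i, i ≠ i0 → ∑ j, y b j * v1 i j = 0 := by
      intro i hi
      rw [hdot, ← hs, ← hs, hq, if_neg hi, div_mul_cancel₀ _ hsi0, sub_self]
    obtain ⟨hu0, huo⟩ := huu b hbm
    obtain ⟨κ, hκ⟩ : ∃ κ, κ = s i0 / ∑ j, y b j * u b j := ⟨_, rfl⟩
    have hκge : Ge P (γ b) κ := by
      have h1 := hvy b hbm i0
      rw [← hs] at h1
      have h2 := h1.resolve_left hsi0
      right
      rw [hκ, P.ord_div hsi0 hu0]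
      omega
    have hdet2 : (Matrix.of v1).det = κ * (Matrix.of (Function.update v1 i0 (u b))).det := by
      have h1 : Matrix.of v1 = (Matrix.of v1).updateRow i0
          (κ • u b + (v i0 - κ • u b)) := by
        have h2 : κ • u b + (v i0 - κ • u b) = v1 i0 := by rw [hv1i0, add_sub_cancel]
        rw [h2]
        ext i j
        rw [Matrix.updateRow_apply]
        split_ifs with hi
        · rw [hi]; rfl
        · rfl
      rw [h1, Matrix.det_updateRow_add, Matrix.det_updateRow_smul]
      have h3 : ((Matrix.of v1).updateRow i0 (v i0 - κ • u b)).det = 0 := by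
        refine det_zero_of_dot _ (y b) hyb fun i => ?_
        by_cases hi : i = i0
        · rw [hi]
          have h4 : ((Matrix.of v1).updateRow i0 (v i0 - κ • u b)) i0 = v i0 - κ • u b :=
            Matrix.updateRow_self
          have h5 : ∑ j, y b j * ((Matrix.of v1).updateRow i0 (v i0 - κ • u b)) i0 j =
              ∑ j, y b j * v i0 j - κ * ∑ j, y b j * u b j := by
            rw [h4, Finset.mul_sum, ← Finset.sum_sub_distrib]
            refine Finset.sum_congr rfl fun j _ => ?_
            rw [Pi.sub_apply, Pi.smul_apply, smul_eq_mul]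
            ring
          refine h5.trans ?_
          rw [← hs, hκ, div_mul_cancel₀ _ hu0, sub_self]
        · have h4 : ((Matrix.of v1).updateRow i0 (v i0 - κ • u b)) i = v1 i :=
            Matrix.updateRow_ne hi
          have h5 : ∑ j, y b j * ((Matrix.of v1).updateRow i0 (v i0 - κ • u b)) i j =
              ∑ j, y b j * v1 i j := by rw [h4]
          exact h5.trans (hdotb i hi)
      rw [h3, add_zero]
      rfl
    have hih := ih (fun b' hb' => hu b' (Finset.mem_insert_of_mem hb'))
      (fun b' hb' => huu b' (Finset.mem_insert_of_mem hb'))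
      (fun b1 hb1 b2 hb2 => hub b1 (Finset.mem_insert_of_mem hb1) b2 (Finset.mem_insert_of_mem hb2))
      (Function.update v1 i0 (u b)) (fun i j => by
        by_cases hi : i = i0
        · rw [hi, Function.update_self]
          exact hu b hbm j
        · rw [Function.update_of_ne hi, hv1, Pi.sub_apply, Pi.smul_apply, smul_eq_mul]
          exact (hv i j).sub (((hqge i).mul (hv i0 j)).mono (by omega))) (fun b' hb' i => by
        have hbb : b ≠ b' := fun h => hb (h ▸ hb')
        by_cases hi : i = i0
        · rw [hi, Function.update_self]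
          exact hub b hbm b' (Finset.mem_insert_of_mem hb') hbb
        · rw [Function.update_of_ne hi, hdot]
          have h1 := hvy b' (Finset.mem_insert_of_mem hb') i
          have h2 := hvy b' (Finset.mem_insert_of_mem hb') i0
          exact h1.sub (((hqge i).mul h2).mono (by omega)))
    rw [hdet1, hdet2, Finset.sum_insert hb]
    exact (hκge.mul hih).mono (by omega)

end Pool.Agent.TH145.GC
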