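import Pool.Agent.TH145.GC.Local

/-!
The local height estimate for generic log complete intersections.
-/

set_option autoImplicit false

open MvPolynomial FF Pool.Agent.W603.LV Pool.Agent.W603.PV Pool.Agent.TH145.GH

namespace Pool.Agent.TH145.GC

variable {k K : Type} [Field k] [Field K] [Algebra k K]

/-- The data of the inequality at the places. -/
structure Data (k : Type) {K : Type} [Field k] [Field K] [Algebra k K] {n : ℕ} {A : Type}
    (F : A → MvPolynomial (Fin (n + 1)) K) (dg : A → ℕ)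
    (D : A → (Fin (n + 1) →₀ ℕ) → Derivation ℤ K K) (e : Place k K → ℤ) : Prop where
  hom : ∀ a, (F a).IsHomogeneous (dg a)
  dual : Dual F dg D
  e_nonneg : ∀ P, 0 ≤ e P
  loss : ∀ P f, Ge P 0 f → ∀ a, ∀ I : Fin (n + 1) →₀ ℕ, I.degree = dg a →
    Ge P (-e P) (D a I f)
  fin : {P | e P ≠ 0}.Finite

section

variable {n : ℕ} {A : Type} {F : A → MvPolynomial (Fin (n + 1)) K} {dg : A → ℕ}
    {D : A → (Fin (n + 1) →₀ ℕ) → Derivation ℤ K K} {e : Place k K → ℤ}

theorem Data.ge_vv (hdat : Data k F dg D e) (P : Place k K) {x : Fin (n + 1) → K}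
    (hx : ∀ l, Ge P 0 (x l)) {I : A → Fin (n + 1) →₀ ℕ} (hI : ∀ a, (I a).degree = dg a)
    (i : Option (Ti n A) ⊕ A) (l : Fin (n + 1)) : Ge P (-e P) (vv dg D x I i l) := by
  have he := hdat.e_nonneg P
  rcases i with (_ | t) | a
  · exact (hx l).mono (by omega)
  · simp only [vv, wv, tv]
    split_ifs with ht
    · refine Ge.mono (by omega : -e P ≤ 0 + -e P) (Ge.sub ?_ ?_)
      · exact (hx _).mul (hdat.loss P _ (hx l) _ _ (by rw [map_add, Finsupp.degree_single, ht]))
      · exact (hx _).mul (hdat.loss P _ (hx l) _ _ (by rw [map_add, Finsupp.degree_single, ht]))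
    · exact Ge.zero
  · exact hdat.loss P _ (hx l) a _ (hI a)

theorem sub_one_ord (P : Place k K) {z : K} (hz : Ge P 1 z) : z - 1 ≠ 0 ∧ P.ord (z - 1) ≤ 0 := by
  have h1 : ¬ Ge P 1 (z - 1) := by
    intro h
    have h2 : Ge P 1 (1 : K) := by
      have := hz.sub h
      rwa [sub_sub_cancel] at this
    rcases h2 with h2 | h2
    · exact one_ne_zero h2
    · rw [P.ord_one] at h2; omega
  unfold Ge at h1
  push Not at h1
  exact ⟨h1.1, by have := h1.2; omega⟩

/-- The order of the differential of a form along the rows. -/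
theorem Data.ge_dF (hdat : Data k F dg D e) (P : Place k K) {x : Fin (n + 1) → K}
    (hx : ∀ l, Ge P 0 (x l)) {I : A → Fin (n + 1) →₀ ℕ} (hI : ∀ a, (I a).degree = dg a)
    {a : A} (hlog : ∀ c, ∀ I : Fin (n + 1) →₀ ℕ, I.degree = dg c →
      Ge P (P.ord (eval x (F a)) - e P) (D c I (eval x (F a))))
    (i : Option (Ti n A) ⊕ A) (hi : i ≠ Sum.inr a) :
    Ge P (P.ord (eval x (F a)) - e P) (dF (F a) x (vv dg D x I i)) := by
  classical
  have he := hdat.e_nonneg P
  rcases i with (_ | t) | c
  · simp only [vv, wv]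
    rw [dF_self (hdat.hom a)]
    have h1 : Ge P (P.ord (eval x (F a))) (eval x (F a)) := Or.inr le_rfl
    have := (Ge.natCast (P := P) (dg a)).mul h1
    exact this.mono (by omega)
  · simp only [vv, wv]
    by_cases ht : t.2.1.degree + 1 = dg t.1
    · rw [dF_tv hdat.hom hdat.dual x a t ht]
      refine Ge.mono (by omega : _ ≤ 0 + (P.ord (eval x (F a)) - e P)) (Ge.sub ?_ ?_)
      · exact (hx _).mul (hlog _ _ (by rw [map_add, Finsupp.degree_single, ht]))
      · exact (hx _).mul (hlog _ _ (by rw [map_add, Finsupp.degree_single, ht]))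
    · rw [tv, if_neg ht]
      have h1 : dF (F a) x 0 = 0 := by simp [dF]
      rw [h1]
      exact Ge.zero
  · simp only [vv]
    rw [dF_Ev hdat.hom hdat.dual x (hI c), if_neg fun h => hi (by rw [h]), sub_zero]
    exact hlog c _ (hI c)

theorem full_scale_eq (x : Fin (n + 1) → K) {lam : K} (hl : lam ≠ 0) :
    Full dg D (lam • x) = Full dg D x := by
  apply le_antisymm (full_scale_le x lam)
  have h1 := full_scale_le (dg := dg) (D := D) (lam • x) lam⁻¹
  rwa [smul_smul, inv_mul_cancel₀ hl, one_smul] at h1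

open scoped Classical in
/-- A linear functional on the vector fields in terms of the chosen coordinates. -/
theorem exists_coord {x : Fin (n + 1) → K} {I : A → Fin (n + 1) →₀ ℕ}
    (hI : ∀ a, (I a).degree = dg a) {b : Finset (Option (Ti n A) ⊕ A)} (σ : b → Fin (n + 1))
    (hcard : Module.finrank K (Full dg D x) = b.card) (hdet : (mx dg D x I b σ).det ≠ 0)
    (G : MvPolynomial (Fin (n + 1)) K) :
    ∃ y : b → K, ∀ z ∈ Full dg D x, ∑ j, y j * z (σ j) = dF G x z := by
  obtain ⟨M, hM⟩ : ∃ M, M = mx dg D x I b σ := ⟨_, rfl⟩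
  rw [← hM] at hdet
  have hMu : IsUnit M.det := isUnit_iff_ne_zero.2 hdet
  obtain ⟨y, hy⟩ : ∃ y, y = M⁻¹.mulVec (fun i => dF G x (vv dg D x I i)) := ⟨_, rfl⟩
  have hMy : M.mulVec y = fun i : b => dF G x (vv dg D x I i) := by
    rw [hy, Matrix.mulVec_mulVec, Matrix.mul_nonsing_inv _ hMu, Matrix.one_mulVec]
  refine ⟨y, ?_⟩
  -- the rows are a basis
  have hli : LinearIndependent K (fun i : b => vv dg D x I i) := by
    rw [Fintype.linearIndependent_iff]
    intro g hg
    have h1 : M.vecMul g = 0 := by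
      funext j
      have h2 := congrFun hg (σ j)
      rw [Finset.sum_apply, Pi.zero_apply] at h2
      rw [Matrix.vecMul, dotProduct, Pi.zero_apply, ← h2]
      refine Finset.sum_congr rfl fun i _ => ?_
      rw [hM]
      rfl
    have h2 : g = 0 := Matrix.eq_zero_of_vecMul_eq_zero hdet h1
    intro i
    rw [h2, Pi.zero_apply]
  have hle : Submodule.span K (Set.range fun i : b => vv dg D x I i) ≤ Full dg D x := by
    rw [Submodule.span_le]
    rintro _ ⟨i, rfl⟩
    exact vv_mem_full x hI i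
  have hspan : Submodule.span K (Set.range fun i : b => vv dg D x I i) = Full dg D x := by
    apply Submodule.eq_of_le_of_finrank_eq hle
    rw [finrank_span_eq_card hli, Fintype.card_coe, hcard]
  intro z hz
  rw [← hspan, Submodule.mem_span_range_iff_exists_fun] at hz
  obtain ⟨c, rfl⟩ := hz
  have h1 : dF G x (∑ i, c i • vv dg D x I i) = ∑ i, c i * dF G x (vv dg D x I i) := by
    obtain ⟨φ, hφ⟩ : ∃ φ : (Fin (n + 1) → K) →ₗ[K] K, ∀ z, φ z = dF G x z :=
      ⟨{ toFun := fun z => dF G x z
         map_add' := fun y z => dF_add _ _ _ _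
         map_smul' := fun r z => dF_smul _ _ _ _ }, fun _ => rfl⟩
    rw [← hφ, map_sum]
    refine Finset.sum_congr rfl fun i _ => ?_
    rw [map_smul, hφ, smul_eq_mul]
  rw [h1]
  have h2 : ∀ i : b, dF G x (vv dg D x I i) = ∑ j, vv dg D x I i (σ j) * y j := by
    intro i
    rw [← congrFun hMy i, Matrix.mulVec, dotProduct, hM]
    rfl
  simp only [h2, Finset.sum_apply, Pi.smul_apply, smul_eq_mul, Finset.mul_sum]
  rw [Finset.sum_comm]
  refine Finset.sum_congr rfl fun i _ => Finset.sum_congr rfl fun j _ => by ring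

open scoped Classical in
/-- The order of the determinant at a scaled point. -/
theorem Data.ord_det (hdat : Data k F dg D e) [Fintype A] (P : Place k K) {x : Fin (n + 1) → K}
    (hx : ∀ l, Ge P 0 (x l)) {e1 : Fin (n + 1)} (he1 : x e1 = 1)
    {b : Finset (Option (Ti n A) ⊕ A)} (σ : b → Fin (n + 1))
    (hcard : Module.finrank K (Full dg D x) = b.card)
    (hdet : (mx dg D x (fun a => Finsupp.single e1 (dg a)) b σ).det ≠ 0)
    (hG : ∀ a, Sum.inr a ∉ b → eval x (F a) ≠ 0)
    (hP : (∀ a, Sum.inr a ∉ b → P.ord (eval x (F a)) ≤ 0) ∨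
      ∀ f, f ≠ 0 → ∀ a, ∀ I : Fin (n + 1) →₀ ℕ, I.degree = dg a →
        Ge P (P.ord f - e P) (D a I f)) :
    (∑ a ∈ Finset.univ.filter (fun a => Sum.inr a ∉ b), P.ord (eval x (F a))) -
      (n + 1 + Fintype.card A) * e P ≤
      P.ord (mx dg D x (fun a => Finsupp.single e1 (dg a)) b σ).det := by
  have he := hdat.e_nonneg P
  have hdeg : ∀ a, (Finsupp.single e1 (dg a)).degree = dg a := fun a => Finsupp.degree_single _ _
  have hbn : b.card ≤ n + 1 := by
    rw [← hcard]
    have := Submodule.finrank_le (Full dg D x)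
    rwa [Module.finrank_fin_fun] at this
  have hbe : (b.card : ℤ) * e P ≤ (n + 1) * e P :=
    mul_le_mul_of_nonneg_right (by exact_mod_cast hbn) he
  have hAe : 0 ≤ (Fintype.card A : ℤ) * e P := by positivity
  rcases hP with hP | hP
  · have h1 := (GC.ge_det P (mx dg D x (fun a => Finsupp.single e1 (dg a)) b σ) (c := e P)
      fun i j => hdat.ge_vv P hx hdeg _ _).resolve_left hdet
    rw [Fintype.card_coe] at h1
    have h2 : ∑ a ∈ Finset.univ.filter (fun a => Sum.inr a ∉ b), P.ord (eval x (F a)) ≤ 0 :=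
      Finset.sum_nonpos fun a ha => hP a (Finset.mem_filter.1 ha).2
    linarith
  · obtain ⟨y, hy⟩ : ∃ y : A → b → K, ∀ a, ∀ z ∈ Full dg D x,
        ∑ j, y a j * z (σ j) = dF (F a) x z := by
      choose y hy using fun a => exists_coord hdeg σ hcard hdet (F a)
      exact ⟨y, hy⟩
    obtain ⟨B', hB'⟩ : ∃ B' : Finset A, B' = (Finset.univ.filter fun a => Sum.inr a ∉ b).filter
        fun a => e P + 1 ≤ P.ord (eval x (F a)) := ⟨_, rfl⟩
    have hm : ∀ a ∈ B', Sum.inr a ∉ b ∧ e P + 1 ≤ P.ord (eval x (F a)) := fun a ha => by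
      rw [hB', Finset.mem_filter, Finset.mem_filter] at ha
      exact ⟨ha.1.2, ha.2⟩
    have h1 := det_est P y (fun a j => Ev D x a (Finsupp.single e1 (dg a)) (σ j))
      (fun a => P.ord (eval x (F a)) - e P) (e P) B' (fun a _ j => ?_) (fun a ha => ?_)
      (fun a ha c hc hac => ?_)
      (fun i j => vv dg D x (fun a => Finsupp.single e1 (dg a)) i (σ j)) (fun i j => ?_)
      (fun a ha i => ?_)
    rotate_left
    · exact hdat.loss P _ (hx _) a _ (hdeg a)
    · rw [hy a _ (Ev_mem_full x (hdeg a)), dF_Ev hdat.hom hdat.dual x (hdeg a), if_pos rfl,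
        mon_single, he1, one_pow]
      refine sub_one_ord P ?_
      exact (hP _ (hG a (hm a ha).1) a _ (hdeg a)).mono (by have := (hm a ha).2; omega)
    · rw [hy c _ (Ev_mem_full x (hdeg a)), dF_Ev hdat.hom hdat.dual x (hdeg a), if_neg hac,
        sub_zero]
      exact hP _ (hG c (hm c hc).1) a _ (hdeg a)
    · exact hdat.ge_vv P hx hdeg _ _
    · rw [hy a _ (vv_mem_full x hdeg i)]
      refine hdat.ge_dF P hx hdeg (fun c I hI => hP _ (hG a (hm a ha).1) c I hI) _ ?_
      intro h
      exact (hm a ha).1 (h ▸ i.2)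
    have h2 : (Matrix.of fun (i j : b) => vv dg D x (fun a => Finsupp.single e1 (dg a)) i (σ j)) =
      mx dg D x (fun a => Finsupp.single e1 (dg a)) b σ := rfl
    rw [h2] at h1
    have h3 := h1.resolve_left hdet
    rw [Fintype.card_coe, Finset.sum_sub_distrib] at h3
    have h4 : ∑ a ∈ Finset.univ.filter (fun a => Sum.inr a ∉ b), P.ord (eval x (F a)) ≤
        ∑ a ∈ B', P.ord (eval x (F a)) + ((Finset.univ.filter (fun a => Sum.inr a ∉ b)).filter
          fun a => ¬ e P + 1 ≤ P.ord (eval x (F a))).card * e P := by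
      rw [← Finset.sum_filter_add_sum_filter_not (Finset.univ.filter (fun a => Sum.inr a ∉ b))
        (fun a => e P + 1 ≤ P.ord (eval x (F a))), ← hB']
      refine add_le_add le_rfl ?_
      rw [← nsmul_eq_mul, ← Finset.sum_const]
      refine Finset.sum_le_sum fun a ha => ?_
      have := (Finset.mem_filter.1 ha).2
      omega
    have h5 : B'.card + ((Finset.univ.filter (fun a => Sum.inr a ∉ b)).filter
          fun a => ¬ e P + 1 ≤ P.ord (eval x (F a))).card ≤ Fintype.card A := by
      rw [hB', Finset.card_filter_add_card_filter_not]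
      exact Finset.card_le_univ _
    have h6 : ((B'.card : ℤ) + ((Finset.univ.filter (fun a => Sum.inr a ∉ b)).filter
          fun a => ¬ e P + 1 ≤ P.ord (eval x (F a))).card) * e P ≤ Fintype.card A * e P :=
      mul_le_mul_of_nonneg_right (by exact_mod_cast h5) he
    rw [Finset.sum_const, nsmul_eq_mul] at h3
    linarith

end

end Pool.Agent.TH145.GC
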