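import Pool.Agent.TH145.GC.Limit
import Pool.Agent.TH145.GH.FinB2

/-!
Heights of integral points, and finiteness over a finitely generated ring.
-/

set_option autoImplicit false

open MvPolynomial FF Pool.Agent.W603.LV Pool.Agent.W603.PV Pool.Agent.W602.RG
open Pool.Agent.TH145.GH

namespace Pool.Agent.TH145.GC

variable {k0 K ι : Type} [Field k0] [Field K] [Algebra k0 K] [IsAlgClosed K] [CharZero K]
  {y : ι → K} (E : IntermediateField (IntermediateField.adjoin k0 (Set.range y)) K)

/-- The data in the structure of a variable. -/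
theorem exists_data_L {n : ℕ} {A : Type} [Finite A] {dg : A → ℕ} (hy : AlgebraicIndependent k0 y)
    [FiniteDimensional (IntermediateField.adjoin k0 (Set.range y)) E]
    {F : A → MvPolynomial (Fin (n + 1)) E.toSubfield}
    {DE : A → (Fin (n + 1) →₀ ℕ) → E.toSubfield → E.toSubfield}
    (hG : Gen F dg DE)
    (D : A → (Fin (n + 1) →₀ ℕ) → Derivation ℤ K K)
    (hDE : ∀ a I (x : E.toSubfield), D a I x = (DE a I x : K))
    (hDk : ∀ a I (r : k0), D a I (algebraMap k0 K r) = 0)
    (hDy : ∀ a I j, ∃ r : k0, D a I (y j) = algebraMap k0 K r) (i : ι) :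
    ∃ (φ : E.toSubfield →+* LL k0 y (E : Set K) i)
      (D' : A → (Fin (n + 1) →₀ ℕ) → Derivation ℤ (LL k0 y (E : Set K) i) (LL k0 y (E : Set K) i))
      (e : Place (kap k0 y i) (LL k0 y (E : Set K) i) → ℤ),
      (∀ x, (φ x : K) = x) ∧ (∀ a I x, ((D' a I x : LL k0 y (E : Set K) i) : K) = D a I x) ∧
      Data (kap k0 y i) (fun a => map φ (F a)) dg D' e := by
  have hFF : IsFF (kap k0 y i) (LL k0 y (E : Set K) i) := LL_ff E hy i
  have hac : IsAlgClosed (kap k0 y i) := acl_isAlgClosed _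
  have hcz : CharZero (kap k0 y i) := charZero_of_injective_algebraMap
    (algebraMap ℚ (kap k0 y i)).injective
  let φ : E.toSubfield →+* LL k0 y (E : Set K) i :=
    { toFun := fun x => ⟨x, subset_LL y _ i x.2⟩
      map_one' := rfl
      map_mul' := fun _ _ => rfl
      map_zero' := rfl
      map_add' := fun _ _ => rfl }
  have hDE' : ∀ a I, ∀ x ∈ E, D a I x ∈ E := by
    intro a I x hx
    rw [hDE a I ⟨x, hx⟩]
    exact (DE a I ⟨x, hx⟩).2
  let D' : A → (Fin (n + 1) →₀ ℕ) → Derivation ℤ (LL k0 y (E : Set K) i)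
      (LL k0 y (E : Set K) i) := fun a I => resDer _ (D a I) fun x hx =>
    der_LL E (D a I) (hDk a I) (hDy a I) (hDE' a I) i hx
  obtain ⟨e, hdat⟩ := hG.exists_data (κ := kap k0 y i) φ D' (fun a I x => by
    apply Subtype.ext
    exact hDE a I x) (fun a I c => ⟨⟨_, der_kap (D a I) (hDk a I) (hDy a I) i c.2⟩, rfl⟩)
  exact ⟨φ, D', e, fun _ => rfl, fun _ _ _ => rfl, hdat⟩

/-- The heights of the integral points are bounded. -/
theorem heights {n m : ℕ} {A : Type} [Fintype A] {dg : A → ℕ} (hy : AlgebraicIndependent k0 y)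
    [FiniteDimensional (IntermediateField.adjoin k0 (Set.range y)) E]
    {F : A → MvPolynomial (Fin (n + 1)) E.toSubfield}
    {DE : A → (Fin (n + 1) →₀ ℕ) → E.toSubfield → E.toSubfield}
    (hG : Gen F dg DE)
    (D : A → (Fin (n + 1) →₀ ℕ) → Derivation ℤ K K)
    (hDE : ∀ a I (x : E.toSubfield), D a I x = (DE a I x : K))
    (hDk : ∀ a I (r : k0), D a I (algebraMap k0 K r) = 0)
    (hDy : ∀ a I j, ∃ r : k0, D a I (y j) = algebraMap k0 K r) (C : Finset A)
    (hd : 2 * m + 2 ≤ ∑ a, dg a + C.card) (V : Set (MvPolynomial (Fin (n + 1)) k0))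
    (hV : Pool.Agent.TH145.MG.DimLE k0 V m)
    (l0 : Fin (n + 1)) (T : Finset K) (hT : ∀ t ∈ T, t ∈ E) (i : ι) :
    ∃ B : ℤ, ∀ (x : Fin (n + 1) → E) (s : A → Fin (n + 1) → E), x l0 = 1 →
      (∀ f ∈ V, eval₂ (algebraMap k0 K) (fun j => (x j : K)) f = 0) →
      (∀ a ∈ C, eval (fun j => (x j : K)) (map E.toSubfield.subtype (F a)) = 0) →
      (∀ a, a ∉ C → eval (fun j => (x j : K)) (map E.toSubfield.subtype (F a)) ≠ 0) →
      (∀ a, a ∉ C → ∀ j, (s a j : K) =
        (x j : K) ^ dg a / eval (fun j => (x j : K)) (map E.toSubfield.subtype (F a))) →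
      (∀ a, a ∉ C → ∀ j,
        (s a j : K) ∈ Subring.closure (Set.range (algebraMap k0 K) ∪ (T : Set K))) →
      ∀ j, hgt (kap k0 y i) (⟨(x j : K), subset_LL y _ i (x j).2⟩ :
        LL k0 y (E : Set K) i) ≤ B ∧ ∀ a, a ∉ C →
        hgt (kap k0 y i) (⟨(s a j : K), subset_LL y _ i (s a j).2⟩ :
        LL k0 y (E : Set K) i) ≤ B := by
  classical
  have hFF : IsFF (kap k0 y i) (LL k0 y (E : Set K) i) := LL_ff E hy i
  have hac : IsAlgClosed (kap k0 y i) := acl_isAlgClosed _
  have hcz : CharZero (kap k0 y i) := charZero_of_injective_algebraMap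
    (algebraMap ℚ (kap k0 y i)).injective
  obtain ⟨φ, D', e, hφ, hD', hdat⟩ := exists_data_L E hy hG D hDE hDk hDy i
  -- the poles of the generators of the ring and of the coefficients
  have hcf := finite_cf n dg
  have hcf' : Fintype (Cf n dg) := Fintype.ofFinite _
  obtain ⟨Z, hZ, hZF⟩ : ∃ Z : Finset (LL k0 y (E : Set K) i), (∀ t (ht : t ∈ T),
      (⟨t, subset_LL y _ i (hT t ht)⟩ : LL k0 y (E : Set K) i) ∈ Z) ∧
      ∀ p : Cf n dg, φ ((F p.1).coeff p.2.1) ∈ Z := by
    refine ⟨T.attach.image (fun t : {t // t ∈ T} =>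
      (⟨t.1, subset_LL y _ i (hT t.1 t.2)⟩ : LL k0 y (E : Set K) i)) ∪
      Finset.univ.image (fun p : Cf n dg => φ ((F p.1).coeff p.2.1)), fun t ht => ?_, fun p => ?_⟩
    · exact Finset.mem_union_left _ (Finset.mem_image.2 ⟨⟨t, ht⟩, Finset.mem_attach _ _, rfl⟩)
    · exact Finset.mem_union_right _ (Finset.mem_image_of_mem _ (Finset.mem_univ _))
  obtain ⟨g1, hg1, hg1f, hg1T⟩ := exists_poles (κ := kap k0 y i) Z
  obtain ⟨e', he'⟩ : ∃ e' : Place (kap k0 y i) (LL k0 y (E : Set K) i) → ℤ,
    ∀ P, e' P = if g1 P ≠ 0 then e P + 1 else e P := ⟨_, fun _ => rfl⟩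
  have hdat' : Data (kap k0 y i) (fun a => map φ (F a)) dg D' e' := by
    refine hdat.mono (fun P => ?_) ((hg1f.union hdat.fin).subset fun P hP => ?_)
    · rw [he']; split_ifs <;> omega
    · by_contra hcon
      apply hP
      rw [Set.mem_union, not_or] at hcon
      have h1 : ¬ (e P ≠ 0) := hcon.2
      have h2 : ¬ (g1 P ≠ 0) := hcon.1
      rw [he', if_neg h2]
      tauto
  obtain ⟨H, hH⟩ : ∃ H : ℤ, H = max (∑ᶠ P, ((n + 1 + Fintype.card A) * e' P)) 0 := ⟨_, rfl⟩
  choose B1 hB1 using fun a => hgt_eval_le (κ := kap k0 y i) H (map φ (F a))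
  have hH0 : 0 ≤ H := by rw [hH]; exact le_max_right _ _
  obtain ⟨B2, hB2⟩ : ∃ B2 : ℤ, ∀ a, dg a * H + B1 a ≤ B2 := by
    obtain ⟨B, hB⟩ := (Set.finite_range fun a => dg a * H + B1 a).bddAbove
    exact ⟨B, fun a => hB ⟨a, rfl⟩⟩
  refine ⟨max H B2, fun x s hx hxV hxC hxF hs hsT j => ?_⟩
  obtain ⟨x', hx'⟩ : ∃ x' : Fin (n + 1) → LL k0 y (E : Set K) i,
    ∀ j, x' j = ⟨(x j : K), subset_LL y _ i (x j).2⟩ := ⟨_, fun _ => rfl⟩
  have hxl0 : x' l0 = 1 := by
    rw [hx']
    apply Subtype.ext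
    change (x l0 : K) = 1
    rw [hx]; rfl
  have hx0 : x' ≠ 0 := by
    intro h0
    rw [h0] at hxl0
    exact zero_ne_one hxl0
  have hev : ∀ a, algebraMap (LL k0 y (E : Set K) i) K (eval x' (map φ (F a))) =
      eval (fun j => (x j : K)) (map E.toSubfield.subtype (F a)) := by
    intro a
    rw [eval_incl φ hφ (F a) x']
    congr 2
    funext j
    rw [hx']
    rfl
  have hxC' : ∀ a ∈ C, eval x' (map φ (F a)) = 0 := by
    intro a ha
    apply (algebraMap (LL k0 y (E : Set K) i) K).injective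
    rw [map_zero, hev, hxC a ha]
  have hxF' : ∀ a, a ∉ C → eval x' (map φ (F a)) ≠ 0 := by
    intro a ha h0
    have h1 := hev a
    rw [h0, map_zero] at h1
    exact hxF a ha h1.symm
  have hsx : ∀ a, a ∉ C → ∀ j, (⟨(s a j : K), subset_LL y _ i (s a j).2⟩ :
      LL k0 y (E : Set K) i) = x' j ^ dg a / eval x' (map φ (F a)) := by
    intro a ha j
    apply (algebraMap (LL k0 y (E : Set K) i) K).injective
    rw [map_div₀, hev, map_pow, hx']
    exact hs a ha j
  -- the dimension
  have hrk : Module.finrank (LL k0 y (E : Set K) i) (Full dg D' x') ≤ m + 1 := by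
    let ψ : k0 →+* LL k0 y (E : Set K) i :=
      { toFun := fun r => ⟨algebraMap k0 K r, subset_LL y _ i (k0_mem E r)⟩
        map_one' := Subtype.ext (map_one _)
        map_mul' := fun a b => Subtype.ext (map_mul _ a b)
        map_zero' := Subtype.ext (map_zero _)
        map_add' := fun a b => Subtype.ext (map_add _ a b) }
    have hczL : CharZero (LL k0 y (E : Set K) i) :=
      charZero_of_injective_algebraMap (algebraMap (kap k0 y i) _).injective
    let _ : Algebra k0 (LL k0 y (E : Set K) i) := ψ.toAlgebra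
    refine rank_le (k0 := k0) (fun a I r => ?_) hxl0 ?_
    · apply Subtype.ext
      rw [hD']
      exact hDk a I r
    · refine hV _ x' hx0 fun f hf => ?_
      apply Subtype.ext
      have h1 := hom_eval₂ f ψ (algebraMap (LL k0 y (E : Set K) i) K) x'
      refine h1.trans ?_
      have h2 : (algebraMap (LL k0 y (E : Set K) i) K).comp ψ = algebraMap k0 K := by
        ext r
        rfl
      have h3 : (fun j => algebraMap (LL k0 y (E : Set K) i) K (x' j)) = fun j => (x j : K) := by
        funext j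
        rw [hx']
        rfl
      rw [h2, h3]
      exact hxV f hf
  have h1 : pht (kap k0 y i) x' ≤ H := by
    rw [hH]
    refine (hdat'.ineq hd hx0 hrk hxC' hxF' fun P => ?_).trans (le_max_left _ _)
    by_cases hP : g1 P ≠ 0
    · right
      intro f hf a I hI
      rw [he', if_pos hP]
      exact loss_all P (fun f hf => hdat.loss P f hf a I hI) hf
    · left
      intro a ha
      have hP1 : g1 P = 0 := by tauto
      refine (ord_of_int P (hdat.hom a) (fun u => ?_) hx0 (hxF' a ha) fun j => ?_).le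
      · rw [coeff_map]
        by_cases hu : u ∈ (F a).support
        · have := hg1T P _ (hZF ⟨a, u, deg_of_mem (hG.hom a) hu⟩)
          rwa [hP1, neg_zero] at this
        · rw [notMem_support_iff.1 hu, map_zero]
          exact Ge.zero
      · rw [← hsx a ha]
        obtain ⟨b, hb, hbP⟩ := ge_of_closure E i P hT (fun t ht => by
          have := hg1T P _ (hZ t ht)
          rwa [hP1, neg_zero] at this) (hsT a ha j)
        have : b = ⟨(s a j : K), subset_LL y _ i (s a j).2⟩ := Subtype.ext hb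
        rw [← this]
        exact hbP
  have h2 : ∀ j, hgt (kap k0 y i) (x' j) ≤ H := by
    intro j
    by_cases hj : x' j = 0
    · rw [hj]
      have := Pool.Agent.TH145.MG.hgt_const (k := kap k0 y i) (L := LL k0 y (E : Set K) i) 0
      rw [map_zero] at this
      rw [this]
      exact hH0
    · have h2 := Pool.Agent.W603.CX.hgt_le_pht (k := kap k0 y i) x' hj (l := l0)
        (by rw [hxl0]; exact one_ne_zero)
      rw [hxl0, div_one] at h2
      exact h2.trans h1
  refine ⟨?_, fun a ha => ?_⟩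
  · rw [← hx']
    exact (h2 j).trans (le_max_left _ _)
  · rw [hsx a ha, div_eq_mul_inv]
    refine (Pool.Agent.TH145.MW.hgt_mul_le (k := kap k0 y i) _ _).trans ?_
    rw [hgt_inv]
    refine (add_le_add ((Pool.Agent.TH145.MW.hgt_pow_le (k := kap k0 y i) _ _).trans
      (mul_le_mul_of_nonneg_left (h2 j) (by positivity))) (hB1 a x' h2)).trans ?_
    exact (hB2 a).trans (le_max_right _ _)

/-- Finiteness of the integral points. -/
theorem fin_all {n m : ℕ} {A : Type} [Fintype A] {dg : A → ℕ} [IsAlgClosed k0] [Finite ι]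
    (hy : IsTranscendenceBasis k0 y)
    [FiniteDimensional (IntermediateField.adjoin k0 (Set.range y)) E]
    [IsGalois (IntermediateField.adjoin k0 (Set.range y)) E]
    {F : A → MvPolynomial (Fin (n + 1)) E.toSubfield}
    {DE : A → (Fin (n + 1) →₀ ℕ) → E.toSubfield → E.toSubfield}
    (hG : Gen F dg DE)
    (D : A → (Fin (n + 1) →₀ ℕ) → Derivation ℤ K K)
    (hDE : ∀ a I (x : E.toSubfield), D a I x = (DE a I x : K))
    (hDk : ∀ a I (r : k0), D a I (algebraMap k0 K r) = 0)
    (hDy : ∀ a I j, ∃ r : k0, D a I (y j) = algebraMap k0 K r) (C : Finset A)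
    (hd : 2 * m + 2 ≤ ∑ a, dg a + C.card) (V : Set (MvPolynomial (Fin (n + 1)) k0))
    (hV : Pool.Agent.TH145.MG.DimLE k0 V m)
    (l0 : Fin (n + 1)) (T : Finset K) (hT : ∀ t ∈ T, t ∈ E) :
    {x : Fin (n + 1) → K | (∀ j, x j ∈ E) ∧ x l0 = 1 ∧
      (∀ f ∈ V, eval₂ (algebraMap k0 K) x f = 0) ∧
      (∀ a ∈ C, eval x (map E.toSubfield.subtype (F a)) = 0) ∧
      (∀ a, a ∉ C → eval x (map E.toSubfield.subtype (F a)) ≠ 0) ∧
      ∀ a, a ∉ C → ∀ j, x j ^ dg a / eval x (map E.toSubfield.subtype (F a)) ∈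
        Subring.closure (Set.range (algebraMap k0 K) ∪ (T : Set K))}.Finite := by
  by_contra hinf
  let f := Set.Infinite.natEmbedding _ hinf
  obtain ⟨x, hx⟩ : ∃ x : ℕ → Fin (n + 1) → K, ∀ n, x n = (f n).1 := ⟨_, fun _ => rfl⟩
  have hxinj : Function.Injective x := by
    intro a b hab
    rw [hx, hx] at hab
    exact f.injective (Subtype.ext hab)
  have hxE : ∀ n j, x n j ∈ E := fun n j => by rw [hx]; exact (f n).2.1 j
  have hxl : ∀ n, x n l0 = 1 := fun n => by rw [hx]; exact (f n).2.2.1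
  have hxV : ∀ n, ∀ f ∈ V, eval₂ (algebraMap k0 K) (x n) f = 0 := fun n => by
    rw [hx]; exact (f n).2.2.2.1
  have hxC : ∀ n, ∀ a ∈ C, eval (x n) (map E.toSubfield.subtype (F a)) = 0 := fun n => by
    rw [hx]; exact (f n).2.2.2.2.1
  have hxF : ∀ n a, a ∉ C → eval (x n) (map E.toSubfield.subtype (F a)) ≠ 0 := fun n => by
    rw [hx]; exact (f n).2.2.2.2.2.1
  have hxs : ∀ n a, a ∉ C → ∀ j,
      x n j ^ dg a / eval (x n) (map E.toSubfield.subtype (F a)) ∈
      Subring.closure (Set.range (algebraMap k0 K) ∪ (T : Set K)) := fun n => by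
    rw [hx]; exact (f n).2.2.2.2.2.2
  have hcE : Subring.closure (Set.range (algebraMap k0 K) ∪ (T : Set K)) ≤
      E.toSubfield.toSubring := by
    rw [Subring.closure_le]
    rintro w (⟨r, rfl⟩ | hw)
    · exact k0_mem E r
    · exact hT w hw
  obtain ⟨s, hs⟩ : ∃ s : ℕ → A → Fin (n + 1) → E, ∀ n a, a ∉ C → ∀ j, (s n a j : K) =
      x n j ^ dg a / eval (x n) (map E.toSubfield.subtype (F a)) := by
    classical
    refine ⟨fun n a j => if ha : a ∉ C then ⟨_, hcE (hxs n a ha j)⟩ else 0, fun n a ha j => ?_⟩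
    simp only [dif_pos ha]
  choose B hB using fun i => heights E hy.1 hG D hDE hDk hDy C hd V hV l0 T hT i
  have hB' : ∀ n i j, hgt (kap k0 y i) (⟨x n j, subset_LL y _ i (hxE n j)⟩ :
        LL k0 y (E : Set K) i) ≤ B i ∧ ∀ a, a ∉ C →
      hgt (kap k0 y i) (⟨(s n a j : K), subset_LL y _ i (s n a j).2⟩ :
        LL k0 y (E : Set K) i) ≤ B i := fun n i j =>
    hB i (fun j => ⟨x n j, hxE n j⟩) (s n) (Subtype.ext (hxl n)) (hxV n) (hxC n) (hxF n)
      (hs n) (fun a ha j => by rw [hs n a ha j]; exact hxs n a ha j) j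
  have hz : ∀ j, Om.mk (fun n => x n j) ∈ OE k0 ((E.toSubfield : Subfield K) : Set K) := fun j =>
    lim_mem E hy (fun n => ⟨x n j, hxE n j⟩) B fun n i => (hB' n i j).1
  have hev : ∀ a, eval (fun j => Om.mk fun n => x n j)
      (map ((cst K).comp E.toSubfield.subtype) (F a)) =
      Om.mk fun n => eval (x n) (map E.toSubfield.subtype (F a)) := fun a => eval_mk (F a) x
  have hacl := limit E.toSubfield (fun r => k0_mem E r) hG D hDE hDk C hd V hV
    (fun j => Om.mk fun n => x n j) hz (l0 := l0) (by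
      have h1 : (fun n => x n l0) = fun _ => 1 := funext hxl
      rw [h1]; rfl) (fun f hf => by
      have h1 := Pool.Agent.TH145.MG.eval_mk x (map (algebraMap k0 K) f)
      have h2 : (fun n => eval (x n) (map (algebraMap k0 K) f)) = fun _ => 0 := by
        funext n
        rw [eval_map]
        exact hxV n f hf
      rw [h2] at h1
      have h3 : eval₂ (cst K) (fun j => Om.mk fun n => x n j) (map (algebraMap k0 K) f) = 0 := h1
      rwa [eval₂_map] at h3) (fun a ha => by
      rw [hev]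
      have h1 : (fun n => eval (x n) (map E.toSubfield.subtype (F a))) = fun _ => 0 :=
        funext fun n => hxC n a ha
      rw [h1]; rfl) (fun a ha => by
      rw [hev]
      intro h0
      have h1 : (Om.mk fun n => eval (x n) (map E.toSubfield.subtype (F a))) = Om.mk fun _ => 0 :=
        h0
      rw [Om.mk_eq] at h1
      obtain ⟨n, hn⟩ := h1.exists
      exact hxF n a ha hn) (fun a ha j => by
      have h1 := lim_int E hy T (fun n => s n a j) (fun n => by
        rw [hs n a ha j]; exact hxs n a ha j) B fun n i => (hB' n i j).2 a ha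
      have h2 : (Om.mk fun n => x n j) ^ dg a /
          eval (fun j => Om.mk fun n => x n j) (map ((cst K).comp E.toSubfield.subtype) (F a)) =
          Om.mk fun n => (s n a j : K) := by
        have h3 : (fun n => (s n a j : K)) = fun n =>
            x n j ^ dg a / eval (x n) (map E.toSubfield.subtype (F a)) :=
          funext fun n => hs n a ha j
        rw [hev, h3, ← Om.mk_div]
        congr 1
      rw [h2]
      exact h1)
  choose a ha using fun j => eventually_const (hacl j)
  exact not_all_const hxinj a ha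

end Pool.Agent.TH145.GC
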