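import Pool.Agent.TH145.GC.Est

/-!
The height inequality for generic log complete intersections.
-/

set_option autoImplicit false

open MvPolynomial FF Pool.Agent.W603.LV Pool.Agent.W603.PV Pool.Agent.TH145.GH

namespace Pool.Agent.TH145.GC

variable {k K : Type} [Field k] [Field K] [Algebra k K]

theorem ord_prod (P : Place k K) {ι : Type} (s : Finset ι) (f : ι → K) :
    (∀ i ∈ s, f i ≠ 0) → P.ord (∏ i ∈ s, f i) = ∑ i ∈ s, P.ord (f i) := by
  classical
  induction s using Finset.induction_on with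
  | empty => intro _; rw [Finset.prod_empty, Finset.sum_empty, P.ord_one]
  | insert i s hi ih =>
    intro h
    rw [Finset.prod_insert hi, Finset.sum_insert hi, P.ord_mul (h i (Finset.mem_insert_self _ _))
      (Finset.prod_ne_zero_iff.2 fun j hj => h j (Finset.mem_insert_of_mem hj)),
      ih fun j hj => h j (Finset.mem_insert_of_mem hj)]

section

variable {n : ℕ} {A : Type} {F : A → MvPolynomial (Fin (n + 1)) K} {dg : A → ℕ}
    {D : A → (Fin (n + 1) →₀ ℕ) → Derivation ℤ K K} {e : Place k K → ℤ}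

open scoped Classical in
/-- The local inequality. -/
theorem Data.local_est (hdat : Data k F dg D e) [Fintype A] (P : Place k K)
    {x : Fin (n + 1) → K} {e0 : Fin (n + 1)} (he0 : x e0 ≠ 0)
    {b : Finset (Option (Ti n A) ⊕ A)} (hb : Sum.inl none ∈ b) (σ : b → Fin (n + 1))
    (hspan : Submodule.span K (Set.range (wv dg D x)) ≤
        Submodule.span K (wv dg D x '' {o | Sum.inl o ∈ b}))
    (hcard : Module.finrank K (Full dg D x) = b.card)
    (hdet : (mx dg D x (fun a => Finsupp.single e0 (dg a)) b σ).det ≠ 0)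
    (hG : ∀ a, Sum.inr a ∉ b → eval x (F a) ≠ 0)
    (hP : (∀ a, Sum.inr a ∉ b → P.ord (eval x (F a)) ≤ dg a * pord P x) ∨
      ∀ f, f ≠ 0 → ∀ a, ∀ I : Fin (n + 1) →₀ ℕ, I.degree = dg a →
        Ge P (P.ord f - e P) (D a I f)) :
    ((∑ i ∈ b, rd i : ℕ) - (∑ a, dg a : ℕ)) * pord P x - (n + 1 + Fintype.card A) * e P ≤
      P.ord ((mx dg D x (fun a => Finsupp.single e0 (dg a)) b σ).det /
        ∏ a, if Sum.inr a ∈ b then x e0 ^ dg a else eval x (F a)) := by
  have hx0 : x ≠ 0 := by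
    rintro rfl
    exact he0 rfl
  obtain ⟨lam, x', hlam, hlamP, hxx, hx', e1, he1⟩ := exists_scaled P hx0
  have hdeg : ∀ a, (Finsupp.single e1 (dg a)).degree = dg a := fun a => Finsupp.degree_single _ _
  have hG1 : ∀ a, eval x (F a) = lam ^ dg a * eval x' (F a) := fun a => by
    rw [hxx, eval_smul_hom (hdat.hom a)]
  have hG' : ∀ a, Sum.inr a ∉ b → eval x' (F a) ≠ 0 := fun a ha h0 => by
    apply hG a ha
    rw [hG1, h0, mul_zero]
  obtain ⟨dx, hdx⟩ : ∃ dx, dx = (mx dg D x (fun a => Finsupp.single e0 (dg a)) b σ).det :=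
    ⟨_, rfl⟩
  obtain ⟨dx', hdx'⟩ : ∃ dx', dx' = (mx dg D x' (fun a => Finsupp.single e1 (dg a)) b σ).det :=
    ⟨_, rfl⟩
  have h1 := det_change he0 σ hspan (fun a => Finsupp.single e1 (dg a)) hdeg
  have h2 := det_lam (dg := dg) (D := D) (x := x') lam hb σ (fun a => Finsupp.single e1 (dg a))
  rw [← hxx, ← hdx'] at h2
  rw [← hdx, h2] at h1
  have hmon : ∀ a, mon x (Finsupp.single e1 (dg a)) = lam ^ dg a := fun a => by
    rw [mon_single, hxx, Pi.smul_apply, he1, smul_eq_mul, mul_one]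
  simp only [hmon] at h1
  rw [← hdx] at hdet ⊢
  obtain ⟨Z, hZ⟩ : ∃ Z, Z = ∏ a, if Sum.inr a ∈ b then x e0 ^ dg a else eval x (F a) := ⟨_, rfl⟩
  have hZ0 : Z ≠ 0 := by
    rw [hZ]
    refine Finset.prod_ne_zero_iff.2 fun a _ => ?_
    split_ifs with ha
    · exact pow_ne_zero _ he0
    · exact hG a ha
  rw [← hZ]
  -- the main identity
  obtain ⟨Y, hY⟩ : ∃ Y, Y = ∏ a ∈ Finset.univ.filter (fun a => Sum.inr a ∉ b), eval x' (F a) :=
    ⟨_, rfl⟩
  have hY0 : Y ≠ 0 := by
    rw [hY]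
    exact Finset.prod_ne_zero_iff.2 fun a ha => hG' a (Finset.mem_filter.1 ha).2
  have h3 : (∏ a, if Sum.inr a ∈ b then lam ^ dg a / x e0 ^ dg a else 1) * Z =
      lam ^ (∑ a, dg a) * Y := by
    rw [hZ, hY, ← Finset.prod_pow_eq_pow_sum, Finset.prod_filter, ← Finset.prod_mul_distrib,
      ← Finset.prod_mul_distrib]
    refine Finset.prod_congr rfl fun a _ => ?_
    by_cases ha : Sum.inr a ∈ b
    · simp only [ha, if_true, not_true_eq_false, if_false, mul_one]
      rw [div_mul_cancel₀ _ (pow_ne_zero _ he0)]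
    · simp only [ha, if_false, not_false_eq_true, if_true, one_mul]
      exact hG1 a
  have h4 : lam ^ (∑ i ∈ b, rd i) * dx' = dx / Z * (lam ^ (∑ a, dg a) * Y) := by
    rw [h1, ← h3]
    field_simp
  have hlp : ∀ m : ℕ, lam ^ m ≠ 0 := fun m => pow_ne_zero _ hlam
  have hq0 : dx / Z ≠ 0 := div_ne_zero hdet hZ0
  have hdx'0 : dx' ≠ 0 := by
    intro h0
    rw [h0, mul_zero] at h4
    exact mul_ne_zero hq0 (mul_ne_zero (hlp _) hY0) h4.symm
  have h5 := congrArg P.ord h4
  rw [P.ord_mul (hlp _) hdx'0, P.ord_mul hq0 (mul_ne_zero (hlp _) hY0),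
    P.ord_mul (hlp _) hY0, P.ord_pow, P.ord_pow, hlamP] at h5
  have h6 : P.ord Y = ∑ a ∈ Finset.univ.filter (fun a => Sum.inr a ∉ b),
      P.ord (eval x' (F a)) := by
    rw [hY]
    exact ord_prod P _ _ fun a ha => hG' a (Finset.mem_filter.1 ha).2
  have h7 := hdat.ord_det P hx' he1 σ (by
    rw [← hcard, hxx, full_scale_eq x' hlam]) (by rw [← hdx']; exact hdx'0) hG' (by
    rcases hP with hP | hP
    · left
      intro a ha
      have h8 := hP a ha
      rw [hG1, P.ord_mul (hlp _) (hG' a ha), P.ord_pow, hlamP] at h8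
      linarith
    · exact Or.inr hP)
  rw [← hdx', ← h6] at h7
  rw [sub_mul]
  linarith

variable [IsAlgClosed k] [CharZero k] [IsFF k K]

/-- The height inequality. -/
theorem Data.ineq (hdat : Data k F dg D e) [Fintype A] {m : ℕ} {C : Finset A}
    (hdim : 2 * m + 2 ≤ ∑ a, dg a + C.card) {x : Fin (n + 1) → K} (hx0 : x ≠ 0)
    (hrk : Module.finrank K (Full dg D x) ≤ m + 1)
    (hC : ∀ a ∈ C, eval x (F a) = 0) (hCn : ∀ a, a ∉ C → eval x (F a) ≠ 0)
    (hP : ∀ P : Place k K, (∀ a, a ∉ C → P.ord (eval x (F a)) ≤ dg a * pord P x) ∨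
      ∀ f, f ≠ 0 → ∀ a, ∀ I : Fin (n + 1) →₀ ℕ, I.degree = dg a →
        Ge P (P.ord f - e P) (D a I f)) :
    pht k x ≤ ∑ᶠ P, (n + 1 + Fintype.card A) * e P := by
  classical
  obtain ⟨e0, he0⟩ := Function.ne_iff.1 hx0
  obtain ⟨b, hb0, hbC, hbi, hspan, hcard⟩ := exists_rows hdat.hom hdat.dual he0 hC
  obtain ⟨σ, hσ⟩ := exists_minor _ hbi
  have hdet : (mx dg D x (fun a => Finsupp.single e0 (dg a)) b σ).det ≠ 0 := by
    unfold mx
    convert hσ
  have hG : ∀ a, Sum.inr a ∉ b → a ∉ C := fun a ha hac => ha (hbC a hac)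
  have hrd : ∑ i ∈ b, rd i + C.card + 1 ≤ 2 * b.card := by
    obtain ⟨b', hb'⟩ : ∃ b' : Finset (Option (Ti n A) ⊕ A), b' = insert (Sum.inl none)
      (C.image Sum.inr) := ⟨_, rfl⟩
    have h1 : b' ⊆ b := by
      rw [hb']
      intro i hi
      rcases Finset.mem_insert.1 hi with rfl | hi
      · exact hb0
      · obtain ⟨a, ha, rfl⟩ := Finset.mem_image.1 hi
        exact hbC a ha
    have h2 : b'.card = C.card + 1 := by
      rw [hb', Finset.card_insert_of_notMem (by simp), Finset.card_image_of_injective _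
        Sum.inr_injective]
    have h3 : ∑ i ∈ b', rd i = b'.card := by
      rw [Finset.card_eq_sum_ones]
      refine Finset.sum_congr rfl fun i hi => ?_
      rw [hb'] at hi
      rcases Finset.mem_insert.1 hi with rfl | hi
      · rfl
      · obtain ⟨a, ha, rfl⟩ := Finset.mem_image.1 hi
        rfl
    have h4 : ∑ i ∈ b \ b', rd i ≤ 2 * (b \ b').card := by
      rw [mul_comm, ← smul_eq_mul, ← Finset.sum_const]
      refine Finset.sum_le_sum fun i _ => ?_
      rcases i with (_ | _) | _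
      · exact one_le_two
      · exact le_rfl
      · exact one_le_two
    have h5 := Finset.sum_sdiff (f := fun i => rd i) h1
    have h6 := Finset.card_sdiff_add_card_eq_card h1
    omega
  have hpht : 0 ≤ pht k x :=
    (hgt_nonneg _).trans (Pool.Agent.W603.CX.hgt_le_pht (k := k) x he0 he0)
  refine sum_local hx0 (Θ := (mx dg D x (fun a => Finsupp.single e0 (dg a)) b σ).det /
        ∏ a, if Sum.inr a ∈ b then x e0 ^ dg a else eval x (F a))
    (a := (∑ a, dg a : ℕ) - (∑ i ∈ b, rd i : ℕ)) (by omega) ?_ (fun P => ?_) hpht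
  · refine hdat.fin.subset fun P hP => ?_
    intro h0
    apply hP
    rw [h0, mul_zero]
  · have h1 := hdat.local_est P he0 hb0 σ hspan hcard hdet (fun a ha => hCn a (hG a ha)) (by
      rcases hP P with h | h
      · exact Or.inl fun a ha => h a (hG a ha)
      · exact Or.inr h)
    rw [neg_sub]
    convert h1

end

end Pool.Agent.TH145.GC
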