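import Pool.Agent.TH145.GC.DataE
import Pool.Agent.TH145.GH.Limit

/-!
Limit points are constant.
-/

set_option autoImplicit false

open MvPolynomial FF Pool.Agent.W603.LV Pool.Agent.W603.PV Pool.Agent.W602.RG
open Pool.Agent.TH145.GH

namespace Pool.Agent.TH145.GC

variable {k0 K : Type} [Field k0] [Field K] [Algebra k0 K] [IsAlgClosed k0] [IsAlgClosed K]
  [CharZero K]

theorem exists_rig_data {n : ℕ} {A : Type} {dg : A → ℕ} (E : Subfield K)
    (hE : ∀ r : k0, algebraMap k0 K r ∈ E)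
    {F : A → MvPolynomial (Fin (n + 1)) E} {DE : A → (Fin (n + 1) →₀ ℕ) → E → E}
    (hG : Gen F dg DE)
    (D : A → (Fin (n + 1) →₀ ℕ) → Derivation ℤ K K)
    (hDE : ∀ a I (x : E), D a I x = (DE a I x : K))
    (hDk : ∀ a I (r : k0), D a I (algebraMap k0 K r) = 0) {J : Type} [Finite J]
    (z : J → Om K) (hz : ∀ j, z j ∈ OE k0 (E : Set K)) (X : Finset (Om K))
    (hX : (X : Set (Om K)) ⊆ CC k0 K) (j1 : J) (hj1 : z j1 ∉ acl (cst K '' (E : Set K))) :
    ∃ (κ : Subfield (Om K)) (Λ : IntermediateField κ (Om K)) (M : Subfield Λ) (φ : E →+* Λ)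
      (D' : A → (Fin (n + 1) →₀ ℕ) → Derivation ℤ Λ Λ),
      IsAlgClosed κ ∧ IsFF κ Λ ∧ (∀ j, z j ∈ Λ) ∧ z j1 ∉ κ ∧
      (∀ x ∈ X, ∃ m ∈ M, ((m : Λ) : Om K) = x) ∧ (∀ x ∈ E, cst K x ∈ κ) ∧
      (∀ x : E, ((φ x : Λ) : Om K) = cst K x) ∧
      Data κ (fun a => map φ (F a)) dg D' (fun _ => 0) ∧
      (∀ P : Place κ Λ, (∀ m ∈ M, P.ord m = 0) ∨
        ∀ a I f, f ≠ 0 → Ge P (P.ord f) (D' a I f)) ∧
      ∀ a I (r : k0), D' a I (φ ⟨algebraMap k0 K r, hE r⟩) = 0 := by
  classical
  obtain ⟨κ, Λ, M, hac, hFF, hEκ, hzΛ, hzκ, hXM, hMC, hder, hplace⟩ :=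
    exists_rig E hE z hz X hX j1 hj1
  have hczOm : CharZero (Om K) :=
    charZero_of_injective_algebraMap (algebraMap K (Om K)).injective
  have hcz : CharZero κ := charZero_of_injective_algebraMap (algebraMap ℚ κ).injective
  let φ : E →+* Λ :=
    { toFun := fun x => ⟨cst K x, Λ.algebraMap_mem ⟨cst K x, hEκ x x.2⟩⟩
      map_one' := Subtype.ext (map_one (cst K))
      map_mul' := fun a b => Subtype.ext (map_mul (cst K) (a : K) b)
      map_zero' := Subtype.ext (map_zero (cst K))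
      map_add' := fun a b => Subtype.ext (map_add (cst K) (a : K) b) }
  have hd := fun a I => hder (hat (D a I)) (fun w hw => hat_CC (D a I) (hDk a I) hw)
    (fun x hx => ⟨(DE a I ⟨x, hx⟩ : K), (DE a I ⟨x, hx⟩).2, by
      rw [hat_cst, ← hDE a I ⟨x, hx⟩]⟩)
  let D' : A → (Fin (n + 1) →₀ ℕ) → Derivation ℤ Λ Λ := fun a I =>
    resDer Λ (hat (D a I)) (hd a I).2
  have hD' : ∀ a I (x : Λ), ((D' a I x : Λ) : Om K) = hat (D a I) x := fun a I x => rfl
  have hS : ∀ a I, Sem κ (D' a I) := fun a I c => ⟨⟨hat (D a I) c, (hd a I).1 c c.2⟩, rfl⟩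
  have hM0 : ∀ a I, ∀ m ∈ M, D' a I m = 0 := by
    intro a I m hm
    apply Subtype.ext
    rw [hD']
    exact hat_CC (D a I) (hDk a I) (hMC m hm)
  refine ⟨κ, Λ, M, φ, D', hac, hFF, hzΛ, hzκ, hXM, hEκ, fun x => rfl, ?_, fun P => ?_,
    fun a I r => ?_⟩
  · refine hG.data φ D' (fun a I x => ?_) (fun _ => le_rfl) ?_ ?_
    · apply Subtype.ext
      rw [hD']
      change hat (D a I) (cst K x) = cst K (DE a I x)
      rw [hat_cst, hDE]
    · intro P f hf a I _
      rw [neg_zero]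
      rcases hplace P with ⟨-, θ, hθM, c, hu⟩ | ⟨π, hπM, hπ⟩
      · refine reg_of_unif P hu (hS a I) le_rfl ?_ hf
        obtain ⟨c', hc'⟩ := hS a I c
        rw [map_sub, hM0 a I θ hθM, hc', zero_sub]
        exact (Ge.const c').neg
      · refine reg_of_unif P hπ (hS a I) le_rfl ?_ hf
        rw [hM0 a I π hπM]
        exact Ge.zero
    · simp
  · rcases hplace P with ⟨h1, -⟩ | ⟨π, hπM, hπ⟩
    · exact Or.inl h1
    · right
      intro a I f hf
      have hπ0 : π ≠ 0 := by
        rintro rfl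
        rw [P.ord_zero] at hπ
        exact absurd hπ (by norm_num)
      obtain ⟨g, hg⟩ : ∃ g, g = f / π ^ P.ord f := ⟨_, rfl⟩
      have hπz : π ^ P.ord f ≠ 0 := zpow_ne_zero _ hπ0
      have h1 : f = π ^ P.ord f * g := by
        rw [hg, mul_div_cancel₀ _ hπz]
      have h2 : Ge P 0 g := by
        right
        rw [hg, P.ord_div hf hπz, P.ord_zpow, hπ]
        linarith
      have h3 : Ge P 0 (D' a I g) := by
        refine reg_of_unif P hπ (hS a I) le_rfl ?_ h2
        rw [hM0 a I π hπM]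
        exact Ge.zero
      have h4 : D' a I f = π ^ P.ord f * D' a I g := by
        conv_lhs => rw [h1]
        rw [(D' a I).leibniz, hM0 a I _ (zpow_mem hπM _)]
        simp
      rw [h4]
      have h5 : Ge P (P.ord f) (π ^ P.ord f) := by
        right
        rw [P.ord_zpow, hπ, mul_one]
      have := h5.mul h3
      rwa [add_zero] at this
  · apply Subtype.ext
    rw [hD']
    change hat (D a I) (cst K (algebraMap k0 K r)) = 0
    rw [hat_cst, hDk, map_zero]

/-- Limit points are constant. -/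
theorem limit {n m : ℕ} {A : Type} [Fintype A] {dg : A → ℕ} (E : Subfield K)
    (hE : ∀ r : k0, algebraMap k0 K r ∈ E)
    {F : A → MvPolynomial (Fin (n + 1)) E} {DE : A → (Fin (n + 1) →₀ ℕ) → E → E}
    (hG : Gen F dg DE)
    (D : A → (Fin (n + 1) →₀ ℕ) → Derivation ℤ K K)
    (hDE : ∀ a I (x : E), D a I x = (DE a I x : K))
    (hDk : ∀ a I (r : k0), D a I (algebraMap k0 K r) = 0) (C : Finset A)
    (hd : 2 * m + 2 ≤ ∑ a, dg a + C.card) (V : Set (MvPolynomial (Fin (n + 1)) k0))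
    (hV : Pool.Agent.TH145.MG.DimLE k0 V m)
    (z : Fin (n + 1) → Om K) (hz : ∀ j, z j ∈ OE k0 (E : Set K)) {l0 : Fin (n + 1)}
    (hl0 : z l0 = 1) (hzV : ∀ f ∈ V, eval₂ ((cst K).comp (algebraMap k0 K)) z f = 0)
    (hzC : ∀ a ∈ C, eval z (map ((cst K).comp E.subtype) (F a)) = 0)
    (hzn : ∀ a, a ∉ C → eval z (map ((cst K).comp E.subtype) (F a)) ≠ 0)
    (hint : ∀ a, a ∉ C → ∀ j, z j ^ dg a / eval z (map ((cst K).comp E.subtype) (F a)) ∈
      Subring.closure (Set.range (mapOm k0 K) ∪ cst K '' (E : Set K))) (j : Fin (n + 1)) :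
    z j ∈ acl (cst K '' (E : Set K)) := by
  classical
  by_contra hj1
  have h0 : ∀ (a : A) (j : Fin (n + 1)), ∃ c : Finset (Om K),
      (c : Set (Om K)) ⊆ Set.range (mapOm k0 K) ∧ (a ∉ C →
      z j ^ dg a / eval z (map ((cst K).comp E.subtype) (F a)) ∈
        Subring.closure ((c : Set (Om K)) ∪ cst K '' (E : Set K))) := fun a j => by
    by_cases ha : a ∈ C
    · exact ⟨∅, by simp, fun h => absurd ha h⟩
    · obtain ⟨c, hc, h⟩ := fin_closure_ring (hint a ha j)
      exact ⟨c, hc, fun _ => h⟩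
  choose c hc hcz' using h0
  obtain ⟨X, hX⟩ : ∃ X : Finset (Om K), X = Finset.univ.biUnion fun p : A × Fin (n + 1) =>
    c p.1 p.2 := ⟨_, rfl⟩
  obtain ⟨κ, Λ, M, φ, D', hac, hFF, hzΛ, hzκ, hXM, hEκ, hφ, hdat, hdich, hDk'⟩ :=
    exists_rig_data E hE hG D hDE hDk z hz X (by
      intro w hw
      rw [hX, Finset.mem_coe, Finset.mem_biUnion] at hw
      obtain ⟨p, -, hw⟩ := hw
      obtain ⟨u, hu⟩ := hc _ _ hw
      exact ⟨u, hu⟩) j hj1
  have hczOm : CharZero (Om K) :=
    charZero_of_injective_algebraMap (algebraMap K (Om K)).injective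
  have hcz : CharZero κ := charZero_of_injective_algebraMap (algebraMap ℚ κ).injective
  have hczΛ : CharZero Λ := charZero_of_injective_algebraMap (algebraMap κ Λ).injective
  obtain ⟨x, hx⟩ : ∃ x : Fin (n + 1) → Λ, ∀ j, x j = ⟨z j, hzΛ j⟩ := ⟨_, fun _ => rfl⟩
  have hxz : (fun j => ((x j : Λ) : Om K)) = z := by
    funext j
    rw [hx]
  have hxl0 : x l0 = 1 := by
    rw [hx]
    exact Subtype.ext hl0
  have hx0 : x ≠ 0 := by
    intro h0
    rw [h0] at hxl0
    exact zero_ne_one hxl0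
  have hev : ∀ a, ((eval x (map φ (F a)) : Λ) : Om K) =
      eval z (map ((cst K).comp E.subtype) (F a)) := fun a => by
    rw [eval_lift φ hφ (F a) x, hxz]
  have hxC : ∀ a ∈ C, eval x (map φ (F a)) = 0 := fun a ha => by
    apply Subtype.ext
    rw [hev, hzC a ha]
    rfl
  have hxF : ∀ a, a ∉ C → eval x (map φ (F a)) ≠ 0 := by
    intro a ha h0
    have h1 := hev a
    rw [h0] at h1
    exact hzn a ha h1.symm
  -- the dimension
  have hrk : Module.finrank Λ (Full dg D' x) ≤ m + 1 := by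
    let ψ : k0 →+* E := (algebraMap k0 K).codRestrict E hE
    let _ : Algebra k0 Λ := (φ.comp ψ).toAlgebra
    refine rank_le (k0 := k0) (fun a I r => hDk' a I r) hxl0 ?_
    refine hV Λ x hx0 fun f hf => ?_
    apply Subtype.ext
    have h1 := hom_eval₂ f (φ.comp ψ) (algebraMap Λ (Om K)) x
    refine h1.trans ?_
    have h2 : (algebraMap Λ (Om K)).comp (φ.comp ψ) = (cst K).comp (algebraMap k0 K) := by
      ext r
      exact hφ (ψ r)
    rw [h2]
    have h3 : (fun i => algebraMap Λ (Om K) (x i)) = z := hxz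
    rw [h3]
    exact hzV f hf
  have h1 := hdat.ineq hd hx0 hrk hxC hxF (fun P => by
    rcases hdich P with hP | hP
    · left
      intro a ha
      -- integrality at the moving places
      have hreg : ∀ w ∈ Subring.closure ((X : Set (Om K)) ∪ cst K '' (E : Set K)),
          ∃ a : Λ, (a : Om K) = w ∧ Ge P 0 a := by
        intro w hw
        induction hw using Subring.closure_induction with
        | mem w hw =>
          rcases hw with hw | ⟨y, hy, rfl⟩
          · obtain ⟨m, hm, hmw⟩ := hXM w hw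
            exact ⟨m, hmw, Or.inr (hP m hm).ge⟩
          · exact ⟨algebraMap κ Λ ⟨cst K y, hEκ y hy⟩, rfl, Ge.const _⟩
        | zero => exact ⟨0, rfl, Ge.zero⟩
        | one => exact ⟨1, rfl, Ge.one⟩
        | add a b _ _ ha hb =>
          obtain ⟨a', rfl, ha⟩ := ha
          obtain ⟨b', rfl, hb⟩ := hb
          exact ⟨a' + b', rfl, ha.add hb⟩
        | neg a _ ha =>
          obtain ⟨a', rfl, ha⟩ := ha
          exact ⟨-a', rfl, ha.neg⟩
        | mul a b _ _ ha hb =>
          obtain ⟨a', rfl, ha⟩ := ha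
          obtain ⟨b', rfl, hb⟩ := hb
          refine ⟨a' * b', rfl, ?_⟩
          have := ha.mul hb
          rwa [add_zero] at this
      have hreg' : ∀ j, Ge P 0 (x j ^ dg a / eval x (map φ (F a))) := by
        intro j
        obtain ⟨b, hb, hbP⟩ := hreg (z j ^ dg a / eval z (map ((cst K).comp E.subtype) (F a))) (by
          refine Subring.closure_mono (Set.union_subset_union_left _ ?_) (hcz' a j ha)
          intro w hw
          rw [hX, Finset.mem_coe, Finset.mem_biUnion]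
          exact ⟨(a, j), Finset.mem_univ _, hw⟩)
        have h2 : x j ^ dg a / eval x (map φ (F a)) = b := by
          apply Subtype.ext
          rw [hb, ← hev a, ← show ((x j : Λ) : Om K) = z j from congrFun hxz j]
          rfl
        rw [h2]
        exact hbP
      obtain ⟨j2, hj2, hj2P⟩ := exists_pord P (Function.ne_iff.1 hx0)
      have h2 := (hreg' j2).resolve_left (div_ne_zero (pow_ne_zero _ hj2) (hxF a ha))
      rw [P.ord_div (pow_ne_zero _ hj2) (hxF a ha), P.ord_pow, hj2P] at h2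
      linarith
    · right
      intro f hf a I _
      rw [sub_zero]
      exact hP a I f hf)
  simp only [mul_zero, finsum_zero] at h1
  obtain ⟨c, hc⟩ := const_of_pht h1 hxl0 j
  apply hzκ
  have h2 := congrArg (fun w : Λ => (w : Om K)) hc
  rw [hx] at h2
  change z j = (c : Om K) at h2
  rw [h2]
  exact c.2

end Pool.Agent.TH145.GC
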