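import Pool.Agent.TH145.GC.Rows

/-!
The height inequality for generic log complete intersections.
-/

set_option autoImplicit false

open MvPolynomial FF Pool.Agent.W603.LV Pool.Agent.W603.PV Pool.Agent.TH145.GH

namespace Pool.Agent.TH145.GC

section det

variable {K : Type} [Field K] {R : Type} [Fintype R] [DecidableEq R]

theorem det_row_zero (r : R → R → K) (i0 : R) (h : r i0 ∈ Submodule.span K (r '' {i | i ≠ i0})) :
    (Matrix.of r).det = 0 := by
  apply Matrix.det_eq_zero_of_not_linearIndependent_rows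
  intro h3
  have h4 : LinearIndependent K r := h3
  exact (h4.notMem_span_image (s := {i | i ≠ i0}) (x := i0) (by simp)) h

theorem det_scale_gen (r r' : R → R → K) (c s : R → K) (i0 : R) (hs : s i0 = 0)
    (h : ∀ i, r i = c i • r' i + s i • r' i0) :
    (Matrix.of r).det = (∏ i, c i) * (Matrix.of r').det := by
  by_cases hc : c i0 = 0
  · rw [Finset.prod_eq_zero (Finset.mem_univ i0) hc, zero_mul]
    refine Matrix.det_eq_zero_of_row_eq_zero i0 fun j => ?_
    rw [Matrix.of_apply, h, hc, hs, zero_smul, add_zero]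
    rfl
  · have h1 : (Matrix.of r).det = (Matrix.of fun i j => c i * r' i j).det := by
      refine Matrix.det_eq_of_forall_row_eq_smul_add_const (fun i => s i / c i0) i0
        (by rw [hs, zero_div]) fun i j => ?_
      rw [Matrix.of_apply, Matrix.of_apply, Matrix.of_apply, h, Pi.add_apply, Pi.smul_apply,
        Pi.smul_apply, smul_eq_mul, smul_eq_mul]
      field_simp
    rw [h1]
    exact Matrix.det_mul_column c (Matrix.of r')

end det

section rows

variable {K : Type} [Field K] {n : ℕ} {A : Type} {dg : A → ℕ}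
  {D : A → (Fin (n + 1) →₀ ℕ) → Derivation ℤ K K}

/-- The matrix of the rows. -/
noncomputable def mx (dg : A → ℕ) (D : A → (Fin (n + 1) →₀ ℕ) → Derivation ℤ K K)
    (x : Fin (n + 1) → K) (I : A → Fin (n + 1) →₀ ℕ) (b : Finset (Option (Ti n A) ⊕ A))
    (σ : b → Fin (n + 1)) : Matrix b b K := Matrix.of fun i j => vv dg D x I i (σ j)

open scoped Classical in
theorem det_change_aux {x : Fin (n + 1) → K} {e : Fin (n + 1)} (he : x e ≠ 0)
    {b : Finset (Option (Ti n A) ⊕ A)} (σ : b → Fin (n + 1))
    (hspan : Submodule.span K (Set.range (wv dg D x)) ≤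
        Submodule.span K (wv dg D x '' {o | Sum.inl o ∈ b}))
    (I : A → Fin (n + 1) →₀ ℕ) (hI : ∀ a, (I a).degree = dg a) (S : Finset A) :
    (mx dg D x (fun a => if a ∈ S then I a else Finsupp.single e (dg a)) b σ).det =
      (∏ a ∈ S, if Sum.inr a ∈ b then mon x (I a) / x e ^ dg a else 1) *
        (mx dg D x (fun a => Finsupp.single e (dg a)) b σ).det := by
  induction S using Finset.induction_on with
  | empty => simp
  | insert a S ha ih =>
    rw [Finset.prod_insert ha, mul_assoc, ← ih]
    obtain ⟨J, hJ⟩ : ∃ J : A → Fin (n + 1) →₀ ℕ, J = fun a => if a ∈ S then I a else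
      Finsupp.single e (dg a) := ⟨_, rfl⟩
    obtain ⟨J', hJ'⟩ : ∃ J' : A → Fin (n + 1) →₀ ℕ, J' = fun c => if c ∈ insert a S then I c else
      Finsupp.single e (dg c) := ⟨_, rfl⟩
    rw [← hJ, ← hJ']
    have h1 : ∀ c, c ≠ a → J' c = J c := by
      intro c hc
      rw [hJ, hJ']
      simp only [Finset.mem_insert, hc, false_or]
    have hJa : J a = Finsupp.single e (dg a) := by
      rw [hJ]
      simp only [if_neg ha]
    have hJ'a : J' a = I a := by
      rw [hJ']
      simp only [Finset.mem_insert_self, if_true]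
    have h2 : ∀ i : Option (Ti n A) ⊕ A, i ≠ Sum.inr a → vv dg D x J' i = vv dg D x J i := by
      rintro (o | c) hi
      · rfl
      · simp only [vv]
        rw [h1 c fun h => hi (by rw [h])]
    split_ifs with hab
    · obtain ⟨i0, hi0⟩ : ∃ i0 : b, i0 = ⟨Sum.inr a, hab⟩ := ⟨_, rfl⟩
      obtain ⟨μ, hμ⟩ : ∃ μ, μ = mon x (I a) / x e ^ dg a := ⟨_, rfl⟩
      obtain ⟨w, hw⟩ : ∃ w, w = Ev D x a (I a) - μ • Ev D x a (Finsupp.single e (dg a)) := ⟨_, rfl⟩
      have hwW : w ∈ Submodule.span K (wv dg D x '' {o | Sum.inl o ∈ b}) := by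
        apply hspan
        rw [hw, hμ]
        exact Ev_mod dg D x e he a _ (I a) (hI a) rfl
      have h3 : mx dg D x J' b σ = (mx dg D x J b σ).updateRow i0
          (μ • (fun j => vv dg D x J i0 (σ j)) + fun j => w (σ j)) := by
        ext i j
        rw [Matrix.updateRow_apply]
        split_ifs with hi
        · rw [hi, hi0]
          simp only [mx, Matrix.of_apply, vv, hJa, hJ'a, hw, Pi.add_apply, Pi.smul_apply,
            Pi.sub_apply]
          rw [add_sub_cancel]
        · simp only [mx, Matrix.of_apply]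
          rw [h2 i fun h => hi (Subtype.ext (by rw [h, hi0]))]
      rw [h3, Matrix.det_updateRow_add, Matrix.det_updateRow_smul]
      have h4 : (mx dg D x J b σ).updateRow i0 (fun j => vv dg D x J i0 (σ j)) =
          mx dg D x J b σ := Matrix.updateRow_eq_self _ _
      have h5 : ((mx dg D x J b σ).updateRow i0 (fun j => w (σ j))).det = 0 := by
        obtain ⟨r, hr⟩ : ∃ r : b → b → K, r = ((mx dg D x J b σ).updateRow i0
            (fun j => w (σ j))) := ⟨_, rfl⟩
        have h6 : r i0 = fun j => w (σ j) := by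
          rw [hr]
          exact Matrix.updateRow_self
        rw [← hr]
        refine det_row_zero r i0 ?_
        rw [h6]
        obtain ⟨π, hπ⟩ : ∃ π : (Fin (n + 1) → K) →ₗ[K] (b → K), ∀ z j, π z j = z (σ j) :=
          ⟨{ toFun := fun z j => z (σ j)
             map_add' := fun _ _ => rfl
             map_smul' := fun _ _ => rfl }, fun _ _ => rfl⟩
        have h7 : (fun j => w (σ j)) = π w := by
          funext j
          rw [hπ]
        rw [h7]
        have h8 : π w ∈ (Submodule.span K (wv dg D x '' {o | Sum.inl o ∈ b})).map π :=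
          ⟨w, hwW, rfl⟩
        rw [Submodule.map_span] at h8
        refine Submodule.span_mono ?_ h8
        rintro _ ⟨_, ⟨o, ho, rfl⟩, rfl⟩
        have hne : (⟨Sum.inl o, ho⟩ : b) ≠ i0 := by
          rw [hi0]
          intro h
          exact absurd (congrArg Subtype.val h) (by simp)
        refine ⟨⟨Sum.inl o, ho⟩, hne, ?_⟩
        have h9 : r ⟨Sum.inl o, ho⟩ = mx dg D x J b σ ⟨Sum.inl o, ho⟩ := by
          rw [hr]
          exact Matrix.updateRow_ne hne
        rw [h9]
        funext j
        rw [hπ]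
        rfl
      rw [h4, h5, add_zero, hμ]
    · rw [one_mul]
      congr 1
      ext i j
      simp only [mx, Matrix.of_apply]
      rw [h2 i fun h => hab (by rw [← h]; exact i.2)]

open scoped Classical in
theorem det_change [Fintype A] {x : Fin (n + 1) → K} {e : Fin (n + 1)}
    (he : x e ≠ 0) {b : Finset (Option (Ti n A) ⊕ A)} (σ : b → Fin (n + 1))
    (hspan : Submodule.span K (Set.range (wv dg D x)) ≤
        Submodule.span K (wv dg D x '' {o | Sum.inl o ∈ b}))
    (I : A → Fin (n + 1) →₀ ℕ) (hI : ∀ a, (I a).degree = dg a) :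
    (mx dg D x I b σ).det =
      (∏ a, if Sum.inr a ∈ b then mon x (I a) / x e ^ dg a else 1) *
        (mx dg D x (fun a => Finsupp.single e (dg a)) b σ).det := by
  have h1 := det_change_aux he σ hspan I hI Finset.univ
  simpa using h1

open scoped Classical in
theorem det_lam {x : Fin (n + 1) → K} (lam : K) {b : Finset (Option (Ti n A) ⊕ A)}
    (hb : Sum.inl none ∈ b) (σ : b → Fin (n + 1)) (I : A → Fin (n + 1) →₀ ℕ) :
    (mx dg D (lam • x) I b σ).det = lam ^ (∑ i ∈ b, rd i) * (mx dg D x I b σ).det := by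
  obtain ⟨s, hs0, hs⟩ := vv_scale dg D x lam I
  have h1 := det_scale_gen (fun (i j : b) => vv dg D (lam • x) I i (σ j))
    (fun (i j : b) => vv dg D x I i (σ j)) (fun i => lam ^ rd i.1) (fun i => s i.1)
    ⟨Sum.inl none, hb⟩ hs0 (fun i => by
      funext j
      rw [hs]
      rfl)
  have h2 : ∏ i : b, lam ^ rd i.1 = lam ^ (∑ i ∈ b, rd i) := by
    rw [Finset.prod_coe_sort b (fun i => lam ^ rd i), Finset.prod_pow_eq_pow_sum]
  rw [h2] at h1
  exact h1

end rows

end Pool.Agent.TH145.GC
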