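import Pool.Agent.TH145.GC.Ineq
import Pool.Agent.TH145.GH.Acl
import Pool.Agent.TH145.MG.Dim

/-!
The dimension of the space of the tangent vectors.
-/

set_option autoImplicit false

open MvPolynomial FF Pool.Agent.TH145.GH Pool.Agent.TH145.MG Pool.Agent.W602.GT

namespace Pool.Agent.TH145.GC

/-- A derivation vanishes on the elements that are algebraic over its constants. -/
theorem der_zero_of_alg {L : Type} [Field L] [CharZero L] (D : Derivation ℤ L L) (Z : Subfield L)
    (hZ : ∀ z ∈ Z, D z = 0) {x : L} (hx : IsAlgebraic Z x) : D x = 0 := by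
  let D' : Derivation Z L L :=
    { toFun := D
      map_add' := fun a b => map_add D a b
      map_smul' := fun z y => by
        change D ((z : L) * y) = (z : L) * D y
        rw [D.leibniz, hZ z z.2, smul_zero, add_zero, smul_eq_mul]
      map_one_eq_zero' := D.map_one_eq_zero
      leibniz' := fun a b => D.leibniz a b }
  have hcz : CharZero Z := SubsemiringClass.instCharZero _
  have h := D'.map_aeval (minpoly Z x) x
  rw [minpoly.aeval, map_zero] at h
  have hsep : (minpoly Z x).Separable := (minpoly.irreducible hx.isIntegral).separable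
  exact (smul_eq_zero.1 h.symm).resolve_left (hsep.aeval_derivative_ne_zero (minpoly.aeval _ _))

variable {k0 L : Type} [Field k0] [Field L] [Algebra k0 L] {n : ℕ} {A : Type}

/-- The vectors that are the sum of a multiple of `x` and the derivative of `x` by a derivation over
`k0`. -/
def Tan (k0 : Type) {L : Type} [Field k0] [Field L] [Algebra k0 L] {n : ℕ}
    (x : Fin (n + 1) → L) : Submodule L (Fin (n + 1) → L) where
  carrier := {z | ∃ (c : L) (E : Derivation ℤ L L), (∀ r : k0, E (algebraMap k0 L r) = 0) ∧
    ∀ l, z l = c * x l + E (x l)}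
  add_mem' := by
    rintro y z ⟨c, E, hE, hy⟩ ⟨c', E', hE', hz⟩
    refine ⟨c + c', E + E', fun r => by rw [Derivation.add_apply, hE, hE', add_zero], fun l => ?_⟩
    rw [Pi.add_apply, hy, hz, Derivation.add_apply]
    ring
  zero_mem' := ⟨0, 0, fun _ => rfl, fun l => by simp⟩
  smul_mem' := by
    rintro s z ⟨c, E, hE, hz⟩
    refine ⟨s * c, s • E, fun r => by rw [Derivation.smul_apply, hE, smul_zero], fun l => ?_⟩
    rw [Pi.smul_apply, hz, Derivation.smul_apply, smul_eq_mul, smul_eq_mul]
    ring

variable {dg : A → ℕ} {D : A → (Fin (n + 1) →₀ ℕ) → Derivation ℤ L L}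

theorem full_le_tan (hDk : ∀ a I (r : k0), D a I (algebraMap k0 L r) = 0) (x : Fin (n + 1) → L) :
    Full dg D x ≤ Tan k0 x := by
  have hE : ∀ a I, Ev D x a I ∈ Tan k0 x := fun a I =>
    ⟨0, D a I, hDk a I, fun l => by rw [zero_mul, zero_add]; rfl⟩
  rw [Full, Submodule.span_le]
  rintro _ (⟨o, rfl⟩ | ⟨a, I, hI, rfl⟩)
  · rcases o with _ | t
    · exact ⟨1, 0, fun _ => rfl, fun l => by simp [wv]⟩
    · simp only [wv, tv]
      split_ifs
      · exact sub_mem (Submodule.smul_mem _ _ (hE _ _)) (Submodule.smul_mem _ _ (hE _ _))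
      · exact zero_mem _
  · exact hE a I

/-- The dimension of the space of the tangent vectors. -/
theorem rank_le [CharZero L] (hDk : ∀ a I (r : k0), D a I (algebraMap k0 L r) = 0)
    {x : Fin (n + 1) → L} {l0 : Fin (n + 1)} (hx0 : x l0 = 1) {m : ℕ}
    (h : Algebra.trdeg k0 (coords k0 x) ≤ m) : Module.finrank L (Full dg D x) ≤ m + 1 := by
  classical
  obtain ⟨I, hI, hIx⟩ := exists_basis x l0 hx0 h
  refine (Submodule.finrank_mono (full_le_tan (dg := dg) hDk x)).trans ?_
  obtain ⟨ρ, hρ⟩ : ∃ ρ : Tan k0 x →ₗ[L] ({i // i ∈ insert l0 I} → L), ∀ z i, ρ z i = z.1 i.1 :=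
    ⟨{ toFun := fun z i => z.1 i.1
       map_add' := fun _ _ => rfl
       map_smul' := fun _ _ => rfl }, fun _ _ => rfl⟩
  have hinj : Function.Injective ρ := by
    rw [← LinearMap.ker_eq_bot, LinearMap.ker_eq_bot']
    rintro ⟨z, c, E, hE, hz⟩ h0
    have h1 : ∀ i ∈ insert l0 I, z i = 0 := fun i hi => by
      have := congrFun h0 ⟨i, hi⟩
      rw [hρ] at this
      exact this
    have hc : c = 0 := by
      have h2 := h1 l0 (Finset.mem_insert_self _ _)
      rw [hz, hx0, E.map_one_eq_zero, mul_one, add_zero] at h2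
      exact h2
    have hEI : ∀ i ∈ I, E (x i) = 0 := fun i hi => by
      have h2 := h1 i (Finset.mem_insert_of_mem hi)
      rwa [hz, hc, zero_mul, zero_add] at h2
    -- the field of the constants
    have hZ : ∀ w ∈ Subfield.closure (Set.range (algebraMap k0 L) ∪ x '' (I : Set (Fin (n + 1)))),
        E w = 0 := by
      intro w hw
      induction hw using Subfield.closure_induction with
      | mem w hw =>
        rcases hw with ⟨r, rfl⟩ | ⟨i, hi, rfl⟩
        · exact hE r
        · exact hEI i hi
      | one => exact E.map_one_eq_zero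
      | add a b _ _ ha hb => rw [map_add, ha, hb, add_zero]
      | neg a _ ha => rw [map_neg, ha, neg_zero]
      | inv a _ ha => rw [Derivation.leibniz_inv, ha, smul_zero]
      | mul a b _ _ ha hb => rw [E.leibniz, ha, hb, smul_zero, smul_zero, add_zero]
    have hx : ∀ i, E (x i) = 0 := by
      intro i
      refine der_zero_of_alg E _ hZ ?_
      have h2 := mem_cl.1 (hIx i)
      have h3 : (IntermediateField.adjoin k0 (x '' (I : Set (Fin (n + 1))))).toSubfield =
        Subfield.closure (Set.range (algebraMap k0 L) ∪ x '' (I : Set (Fin (n + 1)))) :=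
        IntermediateField.adjoin_toSubfield _ _
      rw [← h3]
      exact h2
    apply Subtype.ext
    funext l
    change z l = 0
    rw [hz, hc, hx, zero_mul, add_zero]
  have h1 := LinearMap.finrank_le_finrank_of_injective hinj
  rw [Module.finrank_pi, Fintype.card_coe] at h1
  have h2 := Finset.card_insert_le l0 I
  omega

end Pool.Agent.TH145.GC
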