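import Pool.Agent.TH145.GC.Vec
import Pool.Agent.TH145.GC.Det

/-!
Choice of the tangent vector fields.
-/

set_option autoImplicit false

open MvPolynomial Pool.Agent.TH145.GH

namespace Pool.Agent.TH145.GC

/-- A nonzero minor of a matrix with independent rows. -/
theorem exists_minor {K R ρ : Type} [Field K] [Fintype R] [DecidableEq R] (w : R → ρ → K)
    (hw : LinearIndependent K w) :
    ∃ σ : R → ρ, (Matrix.of fun i j => w i (σ j)).det ≠ 0 := by
  classical
  obtain ⟨c, hc⟩ : ∃ c : ρ → R → K, ∀ j i, c j i = w i j := ⟨fun j i => w i j, fun _ _ => rfl⟩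
  have hspan : Submodule.span K (Set.range c) = ⊤ := by
    by_contra hne
    obtain ⟨f, hf0, hf⟩ := Submodule.exists_le_ker_of_lt_top _ (lt_top_iff_ne_top.2 hne)
    obtain ⟨y, hy⟩ : ∃ y : R → K, ∀ i, y i = f (Pi.single i 1) := ⟨_, fun _ => rfl⟩
    have hfy : ∀ z : R → K, f z = ∑ i, y i * z i := by
      intro z
      have h1 : z = ∑ i, z i • (Pi.single i 1 : R → K) := by
        funext j
        rw [Finset.sum_apply, Finset.sum_eq_single j]
        · rw [Pi.smul_apply, Pi.single_eq_same, smul_eq_mul, mul_one]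
        · intro i _ hi
          rw [Pi.smul_apply, Pi.single_eq_of_ne hi.symm, smul_zero]
        · intro h; exact absurd (Finset.mem_univ j) h
      conv_lhs => rw [h1]
      rw [map_sum]
      refine Finset.sum_congr rfl fun i _ => ?_
      rw [map_smul, hy, smul_eq_mul]
      ring
    have h2 : ∑ i, y i • w i = 0 := by
      funext j
      have h3 : f (c j) = 0 := hf (Submodule.subset_span ⟨j, rfl⟩)
      rw [hfy] at h3
      rw [Finset.sum_apply, Pi.zero_apply, ← h3]
      exact Finset.sum_congr rfl fun i _ => by rw [Pi.smul_apply, smul_eq_mul, hc]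
    have h3 := Fintype.linearIndependent_iff.1 hw y h2
    apply hf0
    apply LinearMap.ext
    intro z
    rw [hfy, LinearMap.zero_apply]
    exact Finset.sum_eq_zero fun i _ => by rw [h3 i, zero_mul]
  obtain ⟨b, -, -, hb, hbi⟩ := exists_linearIndepOn_extension (K := K) (v := c)
    (s := ∅) (t := Set.univ) (linearIndepOn_empty K c) (Set.empty_subset _)
  have hbi' : LinearIndependent K (fun j : b => c j) := hbi
  have hspan2 : ⊤ ≤ Submodule.span K (Set.range fun j : b => c j) := by
    rw [← hspan, Submodule.span_le]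
    rintro _ ⟨j, rfl⟩
    have h1 := hb ⟨j, Set.mem_univ _, rfl⟩
    rwa [Set.image_eq_range] at h1
  let B := Module.Basis.mk hbi' hspan2
  have e : R ≃ b := (Pi.basisFun K R).indexEquiv B
  refine ⟨fun j => e j, ?_⟩
  have h1 : LinearIndependent K (fun j : R => c (e j)) := hbi'.comp e e.injective
  have h2 : IsUnit (Matrix.of fun i j => w i (e j)) := by
    rw [← Matrix.linearIndependent_cols_iff_isUnit]
    convert h1 using 1
    funext j i
    exact (hc _ _).symm
  exact (Matrix.isUnit_iff_isUnit_det _).1 h2 |>.ne_zero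

variable {K : Type} [Field K] {n : ℕ} {A : Type}

/-- The span of all the vector fields. -/
noncomputable def Full (dg : A → ℕ) (D : A → (Fin (n + 1) →₀ ℕ) → Derivation ℤ K K)
    (x : Fin (n + 1) → K) : Submodule K (Fin (n + 1) → K) :=
  Submodule.span K (Set.range (wv dg D x) ∪ {v | ∃ a I, I.degree = dg a ∧ v = Ev D x a I})

section

variable {dg : A → ℕ} {D : A → (Fin (n + 1) →₀ ℕ) → Derivation ℤ K K}

theorem wv_mem_full (x : Fin (n + 1) → K) (o : Option (Ti n A)) : wv dg D x o ∈ Full dg D x :=
  Submodule.subset_span (Or.inl ⟨o, rfl⟩)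

theorem Ev_mem_full (x : Fin (n + 1) → K) {a : A} {I : Fin (n + 1) →₀ ℕ} (hI : I.degree = dg a) :
    Ev D x a I ∈ Full dg D x := Submodule.subset_span (Or.inr ⟨a, I, hI, rfl⟩)

theorem span_wv_le (x : Fin (n + 1) → K) :
    Submodule.span K (Set.range (wv dg D x)) ≤ Full dg D x :=
  Submodule.span_mono Set.subset_union_left

theorem vv_mem_full (x : Fin (n + 1) → K) {I : A → Fin (n + 1) →₀ ℕ}
    (hI : ∀ a, (I a).degree = dg a) (i : Option (Ti n A) ⊕ A) :
    vv dg D x I i ∈ Full dg D x := by
  rcases i with o | a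
  · exact wv_mem_full x o
  · exact Ev_mem_full x (hI a)

theorem full_scale_le (x : Fin (n + 1) → K) (lam : K) : Full dg D (lam • x) ≤ Full dg D x := by
  rw [Full, Submodule.span_le]
  have hx : x ∈ Full dg D x := wv_mem_full x none
  rintro _ (⟨o, rfl⟩ | ⟨a, I, hI, rfl⟩)
  · obtain ⟨s, -, hs⟩ := vv_scale dg D x lam (fun _ => 0)
    have h1 := hs (Sum.inl o)
    have h2 : wv dg D (lam • x) o = lam ^ rd (Sum.inl o : Option (Ti n A) ⊕ A) • wv dg D x o +
        s (Sum.inl o) • x := h1
    rw [SetLike.mem_coe, h2]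
    exact add_mem (Submodule.smul_mem _ _ (wv_mem_full x o)) (Submodule.smul_mem _ _ hx)
  · obtain ⟨s, -, hs⟩ := vv_scale dg D x lam (fun _ => I)
    have h1 := hs (Sum.inr a)
    have h2 : Ev D (lam • x) a I = lam ^ rd (Sum.inr a : Option (Ti n A) ⊕ A) • Ev D x a I +
        s (Sum.inr a) • x := h1
    rw [SetLike.mem_coe, h2]
    exact add_mem (Submodule.smul_mem _ _ (Ev_mem_full x hI)) (Submodule.smul_mem _ _ hx)

/-- The choice of the rows. -/
theorem exists_rows [DecidableEq A] {F : A → MvPolynomial (Fin (n + 1)) K}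
    (hF : ∀ a, (F a).IsHomogeneous (dg a)) (hD : Dual F dg D) {x : Fin (n + 1) → K}
    {e : Fin (n + 1)} (he : x e ≠ 0) {C : Finset A} (hC : ∀ a ∈ C, eval x (F a) = 0) :
    ∃ b : Finset (Option (Ti n A) ⊕ A), Sum.inl none ∈ b ∧ (∀ a ∈ C, Sum.inr a ∈ b) ∧
      LinearIndependent K (fun i : b => vv dg D x (fun a => Finsupp.single e (dg a)) i) ∧
      (Submodule.span K (Set.range (wv dg D x)) ≤
        Submodule.span K (wv dg D x '' {o | Sum.inl o ∈ b})) ∧
      Module.finrank K (Full dg D x) = b.card := by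
  classical
  obtain ⟨v, hv⟩ : ∃ v, v = vv dg D x (fun a => Finsupp.single e (dg a)) := ⟨_, rfl⟩
  have hdeg : ∀ a, (Finsupp.single e (dg a)).degree = dg a := fun a => Finsupp.degree_single _ _
  have hx0 : x ≠ 0 := by
    rintro rfl
    exact he rfl
  have hs0 : LinearIndepOn K v {Sum.inl none} := by
    rw [linearIndepOn_singleton_iff, hv]
    exact hx0
  obtain ⟨b0, hb0, hs0b, hspan0, hb0i⟩ := exists_linearIndepOn_extension hs0
    (t := Set.range Sum.inl) (by rintro _ rfl; exact ⟨none, rfl⟩)
  -- the functionals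
  obtain ⟨Φ, hΦ⟩ : ∃ Φ : (Fin (n + 1) → K) →ₗ[K] (C → K), ∀ z (c : C), Φ z c = dF (F c) x z := by
    exact ⟨{ toFun := fun z c => dF (F c) x z
             map_add' := fun y z => funext fun c => dF_add _ _ _ _
             map_smul' := fun r z => funext fun c => dF_smul _ _ _ _ }, fun _ _ => rfl⟩
  have hΦw : ∀ z ∈ Submodule.span K (Set.range (wv dg D x)), Φ z = 0 := by
    intro z hz
    have h1 : Submodule.span K (Set.range (wv dg D x)) ≤ LinearMap.ker Φ := by
      rw [Submodule.span_le]
      rintro _ ⟨o, rfl⟩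
      rw [SetLike.mem_coe, LinearMap.mem_ker]
      funext c
      rw [hΦ, Pi.zero_apply]
      rcases o with _ | t
      · simp only [wv]
        rw [dF_self (hF c), hC c c.2, mul_zero]
      · simp only [wv]
        by_cases ht : t.2.1.degree + 1 = dg t.1
        · rw [dF_tv hF hD x c t ht, hC c c.2, map_zero, map_zero, mul_zero, mul_zero, sub_zero]
        · rw [tv, if_neg ht]
          simp [dF]
    exact h1 hz
  have hΦE : ∀ a ∈ C, ∀ c : C, Φ (v (Sum.inr a)) c = if a = c then -(x e ^ dg a) else 0 := by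
    intro a ha c
    rw [hΦ, hv]
    simp only [vv]
    rw [dF_Ev hF hD x (hdeg a), hC c c.2, map_zero, mon_single]
    split_ifs <;> simp
  have hΦsum : ∀ r : C → K, Φ (∑ a : C, r a • v (Sum.inr a.1)) =
      fun c => -(r c * x e ^ dg c.1) := by
    intro r
    rw [map_sum]
    funext c
    rw [Finset.sum_apply, Finset.sum_eq_single c]
    · rw [map_smul, Pi.smul_apply, hΦE c c.2, if_pos rfl, smul_eq_mul]
      ring
    · intro a _ hac
      rw [map_smul, Pi.smul_apply, hΦE a a.2, if_neg fun h => hac (Subtype.ext h), smul_zero]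
    · intro h; exact absurd (Finset.mem_univ c) h
  have hCind : LinearIndepOn K v (Sum.inr '' (C : Set A)) := by
    have h1 : LinearIndependent K (fun a : C => v (Sum.inr a.1)) := by
      rw [Fintype.linearIndependent_iff]
      intro r hr a
      have h2 := hΦsum r
      rw [hr, map_zero] at h2
      have h3 := congrFun h2 a
      have h4 : r a * x e ^ dg a.1 = 0 := by
        have h5 : (0 : K) = -(r a * x e ^ dg a.1) := h3
        rw [← neg_eq_zero]; exact h5.symm
      exact (mul_eq_zero.1 h4).resolve_right (pow_ne_zero _ he)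
    have h2 : LinearIndepOn K (v ∘ Sum.inr) (C : Set A) := h1
    exact (LinearIndepOn.image_of_comp _ _ h2)
  have hdisj : Disjoint (Submodule.span K (v '' b0))
      (Submodule.span K (v '' (Sum.inr '' (C : Set A)))) := by
    rw [Submodule.disjoint_def]
    intro z hz1 hz2
    have h1 : Φ z = 0 := by
      apply hΦw
      refine (Submodule.span_le.2 ?_) hz1
      rintro _ ⟨i, hi, rfl⟩
      obtain ⟨o, rfl⟩ := hb0 hi
      rw [hv]
      exact Submodule.subset_span ⟨o, rfl⟩
    have h2 : v '' (Sum.inr '' (C : Set A)) = Set.range fun a : C => v (Sum.inr a.1) := by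
      ext w
      constructor
      · rintro ⟨_, ⟨a, ha, rfl⟩, rfl⟩
        exact ⟨⟨a, ha⟩, rfl⟩
      · rintro ⟨a, rfl⟩
        exact ⟨_, ⟨a.1, a.2, rfl⟩, rfl⟩
    rw [h2, Submodule.mem_span_range_iff_exists_fun] at hz2
    obtain ⟨r, rfl⟩ := hz2
    rw [hΦsum] at h1
    refine Finset.sum_eq_zero fun a _ => ?_
    have h3 := congrFun h1 a
    have h4 : r a * x e ^ dg a.1 = 0 := by
      have h5 : -(r a * x e ^ dg a.1) = 0 := h3
      rwa [neg_eq_zero] at h5
    rw [(mul_eq_zero.1 h4).resolve_right (pow_ne_zero _ he), zero_smul]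
  obtain ⟨b1, -, hb1, hspan1, hb1i⟩ := exists_linearIndepOn_extension (hb0i.union hCind hdisj)
    (Set.subset_univ _)
  have hb1i' : LinearIndependent K (fun i : b1 => v i) := hb1i
  have hfin : b1.Finite := by
    have := hb1i'.finite
    exact Set.toFinite b1
  obtain ⟨b, hb⟩ : ∃ b : Finset (Option (Ti n A) ⊕ A), (b : Set _) = b1 :=
    ⟨hfin.toFinset, hfin.coe_toFinset⟩
  have hbm : ∀ i, i ∈ b ↔ i ∈ b1 := fun i => by rw [← hb, Finset.mem_coe]
  have hbi : LinearIndependent K (fun i : b => v i) := by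
    have h1 : LinearIndepOn K v (b : Set _) := by rw [hb]; exact hb1i
    exact h1
  refine ⟨b, ?_, fun a ha => ?_, ?_, ?_, ?_⟩
  · rw [hbm]; exact hb1 (Or.inl (hs0b rfl))
  · rw [hbm]; exact hb1 (Or.inr ⟨a, ha, rfl⟩)
  · rw [← hv]; exact hbi
  · rw [Submodule.span_le]
    rintro _ ⟨o, rfl⟩
    have h1 := hspan0 ⟨Sum.inl o, ⟨o, rfl⟩, rfl⟩
    have h2 : v (Sum.inl o) = wv dg D x o := by rw [hv]; rfl
    rw [h2] at h1
    refine Submodule.span_mono ?_ h1
    rintro _ ⟨i, hi, rfl⟩
    obtain ⟨o', rfl⟩ := hb0 hi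
    refine ⟨o', ?_, by rw [hv]; rfl⟩
    rw [Set.mem_ofPred_eq, hbm]
    exact hb1 (Or.inl hi)
  · have h1 : Full dg D x = Submodule.span K (Set.range fun i : b => v i) := by
      apply le_antisymm
      · have h2 : ∀ i, v i ∈ Submodule.span K (Set.range fun i : b => v i) := by
          intro i
          have h3 := hspan1 ⟨i, Set.mem_univ _, rfl⟩
          rw [← hb, Set.image_eq_range] at h3
          exact h3
        have h3 : ∀ o, wv dg D x o ∈ Submodule.span K (Set.range fun i : b => v i) := by
          intro o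
          have := h2 (Sum.inl o)
          rwa [hv] at this ⊢
        rw [Full, Submodule.span_le]
        rintro _ (⟨o, rfl⟩ | ⟨a, I, hI, rfl⟩)
        · exact h3 o
        · have h4 := Ev_mod dg D x e he a _ I hI rfl
          have h5 : Submodule.span K (Set.range (wv dg D x)) ≤
              Submodule.span K (Set.range fun i : b => v i) := by
            rw [Submodule.span_le]
            rintro _ ⟨o, rfl⟩
            exact h3 o
          have h6 : Ev D x a (Finsupp.single e (dg a)) ∈
              Submodule.span K (Set.range fun i : b => v i) := by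
            have := h2 (Sum.inr a)
            rwa [hv] at this ⊢
          have h7 := add_mem (h5 h4) (Submodule.smul_mem _ (mon x I / x e ^ dg a) h6)
          rwa [sub_add_cancel] at h7
      · rw [Submodule.span_le]
        rintro _ ⟨i, rfl⟩
        rw [hv]
        exact vv_mem_full x hdeg i
    rw [h1, finrank_span_eq_card hbi, Fintype.card_coe]

end

end Pool.Agent.TH145.GC
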