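import Pool.Agent.TH145.GC.Setup
import Pool.Agent.TH145.GH.MainB

/-!
Forms whose coefficients have algebraically independent ratios.
-/

set_option autoImplicit false

open MvPolynomial Pool.Agent.W602.GT LinearAlgebra.Projectivization Pool.Agent.TH145.GH

namespace Pool.Agent.TH145.GC

/-- A larger algebraically closed field. -/
theorem exists_big (K : Type) [Field K] [CharZero K] (A : Type) :
    ∃ (K' : Type) (_ : Field K') (_ : Algebra K K'), IsAlgClosed K' ∧ CharZero K' ∧
      ∃ t : A → K', AlgebraicIndependent K t := by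
  refine ⟨AlgebraicClosure (FractionRing (MvPolynomial A K)), inferInstance, inferInstance,
    inferInstance, ?_, fun a => algebraMap (FractionRing (MvPolynomial A K)) _
      (algebraMap (MvPolynomial A K) _ (X a)), ?_⟩
  · exact charZero_of_injective_algebraMap (algebraMap K _).injective
  · have h1 := (MvPolynomial.algebraicIndependent_X A K).map'
      (f := IsScalarTower.toAlgHom K (MvPolynomial A K) (FractionRing (MvPolynomial A K)))
      (IsFractionRing.injective (MvPolynomial A K) (FractionRing (MvPolynomial A K)))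
    exact h1.map' (f := IsScalarTower.toAlgHom K (FractionRing (MvPolynomial A K))
      (AlgebraicClosure (FractionRing (MvPolynomial A K))))
      (algebraMap (FractionRing (MvPolynomial A K))
        (AlgebraicClosure (FractionRing (MvPolynomial A K)))).injective

/-- The indices of the ratios of the coefficients. -/
abbrev Rt {n : ℕ} {A : Type} (dg : A → ℕ) (I0 : A → Fin (n + 1) →₀ ℕ) :=
  Σ a : A, {I : Fin (n + 1) →₀ ℕ // I.degree = dg a ∧ I ≠ I0 a}

/-- The coefficients of the scaled forms are independent. -/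
theorem indep_scale {k0 K K' : Type} [Field k0] [Field K] [Field K'] [Algebra k0 K] [Algebra K K']
    [Algebra k0 K'] [IsScalarTower k0 K K'] {n : ℕ} {A : Type} [Finite A] {dg : A → ℕ}
    (F : A → MvPolynomial (Fin (n + 1)) K) (I0 : A → Fin (n + 1) →₀ ℕ)
    (hI0 : ∀ a, (I0 a).degree = dg a) (h0 : ∀ a, (F a).coeff (I0 a) ≠ 0)
    (hind : AlgebraicIndependent k0 fun p : Rt dg I0 =>
      (F p.1).coeff p.2.1 / (F p.1).coeff (I0 p.1)) {t : A → K'}
    (ht : AlgebraicIndependent K t) :
    AlgebraicIndependent k0 fun p : Cf n dg =>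
      t p.1 / algebraMap K K' ((F p.1).coeff (I0 p.1)) *
        algebraMap K K' ((F p.1).coeff p.2.1) := by
  classical
  have h2 := AlgebraicIndependent.sumElim_comp hind ht
  obtain ⟨e, he⟩ : ∃ e : Cf n dg → A ⊕ Rt dg I0, ∀ p, e p = if h : p.2.1 ≠ I0 p.1 then
    Sum.inr ⟨p.1, ⟨p.2.1, p.2.2, h⟩⟩ else Sum.inl p.1 := ⟨_, fun _ => rfl⟩
  have hei : Function.Injective e := by
    rintro ⟨a, I, hI⟩ ⟨b, J, hJ⟩ hij
    rw [he, he] at hij
    by_cases hi : I = I0 a <;> by_cases hj : J = I0 b
    · rw [dif_neg (by rw [not_not]; exact hi), dif_neg (by rw [not_not]; exact hj)] at hij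
      have h3 : a = b := Sum.inl_injective hij
      subst h3
      subst hi
      subst hj
      rfl
    · rw [dif_neg (by rw [not_not]; exact hi), dif_pos hj] at hij
      exact absurd hij (by simp)
    · rw [dif_pos hi, dif_neg (by rw [not_not]; exact hj)] at hij
      exact absurd hij (by simp)
    · rw [dif_pos hi, dif_pos hj] at hij
      have h3 := Sum.inr_injective hij
      have h4 : a = b := congrArg Sigma.fst h3
      subst h4
      have h5 := congrArg Subtype.val (eq_of_heq (Sigma.mk.inj_iff.1 h3).2)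
      have h6 : I = J := h5
      subst h6
      rfl
  have h3 := h2.comp e hei
  have h4 : ∀ a, algebraMap K K' ((F a).coeff (I0 a)) ≠ 0 := fun a => by
    rw [Ne, map_eq_zero]; exact h0 a
  have ht0 : ∀ a, t a ≠ 0 := fun a => by
    intro h5
    have h6 : Transcendental K (t a) := ht.transcendental a
    rw [h5] at h6
    exact h6 (by
      have := isAlgebraic_algebraMap (R := K) (A := K') 0
      rwa [map_zero] at this)
  have hti : ∀ a, t a / algebraMap K K' ((F a).coeff (I0 a)) *
      algebraMap K K' ((F a).coeff (I0 a)) = t a := fun a => div_mul_cancel₀ _ (h4 a)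
  have htm : ∀ a, t a ∈ Pool.Agent.TH145.MG.cl k0 (Set.range fun p : Cf n dg =>
      t p.1 / algebraMap K K' ((F p.1).coeff (I0 p.1)) *
        algebraMap K K' ((F p.1).coeff p.2.1)) := fun a =>
    Pool.Agent.TH145.MG.subset_cl ⟨⟨a, I0 a, hI0 a⟩, hti a⟩
  have := finite_cf n dg
  refine Pool.Agent.TH145.MG.indep_of_mem _ _ h3 fun p => ?_
  rw [Function.comp_apply, he]
  by_cases hi : p.2.1 = I0 p.1
  · rw [dif_neg (by rw [not_not]; exact hi)]
    exact htm p.1
  · rw [dif_pos hi]
    have h5 : algebraMap K K' ((F p.1).coeff p.2.1 / (F p.1).coeff (I0 p.1)) =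
        (t p.1 / algebraMap K K' ((F p.1).coeff (I0 p.1)) *
          algebraMap K K' ((F p.1).coeff p.2.1)) / t p.1 := by
      have h6 := h4 p.1
      have h7 := ht0 p.1
      rw [map_div₀]
      field_simp
    change algebraMap K K' ((F p.1).coeff p.2.1 / (F p.1).coeff (I0 p.1)) ∈ _
    rw [h5]
    exact div_mem (Pool.Agent.TH145.MG.subset_cl ⟨p, rfl⟩) (htm p.1)

/-- Finiteness of integral points, if the ratios of the coefficients are independent. -/
theorem fin_points' {k0 K : Type} [Field k0] [Field K] [Algebra k0 K] [IsAlgClosed K]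
    [CharZero K] [IsAlgClosed k0] {n m : ℕ} {A : Type} [Fintype A] {dg : A → ℕ} (C : Finset A)
    (hd : 2 * m + 2 ≤ ∑ a, dg a + C.card) (V : Set (MvPolynomial (Fin (n + 1)) k0))
    (hV : Pool.Agent.TH145.MG.DimLE k0 V m)
    (F : A → MvPolynomial (Fin (n + 1)) K) (hF : ∀ a, (F a).IsHomogeneous (dg a))
    (I0 : A → Fin (n + 1) →₀ ℕ) (h0 : ∀ a, (F a).coeff (I0 a) ≠ 0)
    (hind : AlgebraicIndependent k0 fun p : Rt dg I0 =>
      (F p.1).coeff p.2.1 / (F p.1).coeff (I0 p.1))
    (T : Finset K) (l0 : Fin (n + 1)) :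
    {x : Fin (n + 1) → K | (∀ j, x j ∈ IntermediateField.adjoin k0 (T : Set K)) ∧ x l0 = 1 ∧
      (∀ f ∈ V, aeval x f = 0) ∧ (∀ a ∈ C, eval x (F a) = 0) ∧
      (∀ a, a ∉ C → eval x (F a) ≠ 0) ∧ ∀ a, a ∉ C → ∀ j, x j ^ dg a / eval x (F a) ∈
        Subring.closure (Set.range (algebraMap k0 K) ∪ (T : Set K))}.Finite := by
  classical
  obtain ⟨K', _, _, hK', hc, t, ht⟩ := exists_big K A
  let _ : Algebra k0 K' := ((algebraMap K K').comp (algebraMap k0 K)).toAlgebra
  have hst : IsScalarTower k0 K K' := IsScalarTower.of_algebraMap_eq fun _ => rfl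
  have hI0 : ∀ a, (I0 a).degree = dg a := fun a =>
    deg_of_mem (hF a) (mem_support_iff.2 (h0 a))
  have h1 := indep_scale (k0 := k0) (K' := K') F I0 hI0 h0 hind ht
  obtain ⟨G, hG⟩ : ∃ G : A → MvPolynomial (Fin (n + 1)) K', ∀ a, G a =
    MvPolynomial.C (t a / algebraMap K K' ((F a).coeff (I0 a))) * map (algebraMap K K') (F a) :=
    ⟨_, fun _ => rfl⟩
  have h2 : ∀ a, (G a).IsHomogeneous (dg a) := fun a => by
    have := (isHomogeneous_C (Fin (n + 1)) (t a / algebraMap K K' ((F a).coeff (I0 a)))).mul
      ((hF a).map (algebraMap K K'))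
    rwa [zero_add, ← hG] at this
  have h4 : (fun p : Cf n dg => (G p.1).coeff p.2.1) =
      fun p => t p.1 / algebraMap K K' ((F p.1).coeff (I0 p.1)) *
        algebraMap K K' ((F p.1).coeff p.2.1) := by
    funext p
    rw [hG, coeff_C_mul, coeff_map]
  have h5 : AlgebraicIndependent k0 (fun p : Cf n dg => (G p.1).coeff p.2.1) := by
    rw [h4]
    exact h1
  have ha0 : ∀ a, algebraMap K K' ((F a).coeff (I0 a)) ≠ 0 := fun a => by
    rw [Ne, map_eq_zero]; exact h0 a
  have ht0 : ∀ a, t a ≠ 0 := fun a => by
    intro h5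
    have h6 : Transcendental K (t a) := ht.transcendental a
    rw [h5] at h6
    exact h6 (by
      have := isAlgebraic_algebraMap (R := K) (A := K') 0
      rwa [map_zero] at this)
  obtain ⟨T', hT'⟩ : ∃ T' : Finset K', T' = Finset.univ.image
    (fun a => algebraMap K K' ((F a).coeff (I0 a)) / t a) ∪ T.image (algebraMap K K') := ⟨_, rfl⟩
  have h3 := fin_points (k0 := k0) C hd V hV h2 h5 T' l0
  have hev : ∀ (a : A) (x : Fin (n + 1) → K), eval (fun j => algebraMap K K' (x j)) (G a) =
      t a / algebraMap K K' ((F a).coeff (I0 a)) * algebraMap K K' (eval x (F a)) := by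
    intro a x
    rw [hG, map_mul, eval_map, eval_C]
    have h5 := eval₂_comp_left (algebraMap K K') (RingHom.id K) x (F a)
    rw [RingHom.comp_id] at h5
    congr 1
    exact h5.symm
  refine Set.Finite.of_finite_image (f := fun x j => algebraMap K K' (x j)) (h3.subset ?_) ?_
  · rintro _ ⟨x, ⟨hx, hxl, hxV, hxC, hxF, hxs⟩, rfl⟩
    refine ⟨fun j => ?_, ?_, fun f hf => ?_, fun a ha => ?_, fun a ha => ?_, fun a ha j => ?_⟩
    · have h4 : (IntermediateField.adjoin k0 (T : Set K)).map (IsScalarTower.toAlgHom k0 K K') =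
          IntermediateField.adjoin k0 ((T.image (algebraMap K K') : Finset K') : Set K') := by
        rw [IntermediateField.adjoin_map, Finset.coe_image]
        rfl
      have h6 : algebraMap K K' (x j) ∈
          IntermediateField.adjoin k0 ((T.image (algebraMap K K') : Finset K') : Set K') := by
        rw [← h4]
        exact ⟨x j, hx j, rfl⟩
      refine IntermediateField.adjoin.mono _ _ _ ?_ h6
      rw [hT', Finset.coe_union]
      exact Set.subset_union_right
    · dsimp only
      rw [hxl, map_one]
    · have h6 := congrArg (algebraMap K K') (hxV f hf)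
      rw [map_zero] at h6
      rw [← h6]
      exact (hom_eval₂ f (algebraMap k0 K) (algebraMap K K') x).symm
    · rw [hev, hxC a ha, map_zero, mul_zero]
    · rw [hev]
      exact mul_ne_zero (div_ne_zero (ht0 a) (ha0 a)) (by rw [Ne, map_eq_zero]; exact hxF a ha)
    · rw [hev]
      have h6 : algebraMap K K' (x j) ^ dg a /
          (t a / algebraMap K K' ((F a).coeff (I0 a)) * algebraMap K K' (eval x (F a))) =
          algebraMap K K' ((F a).coeff (I0 a)) / t a *
            algebraMap K K' (x j ^ dg a / eval x (F a)) := by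
        rw [map_div₀, map_pow]
        have h7 : algebraMap K K' (eval x (F a)) ≠ 0 := by rw [Ne, map_eq_zero]; exact hxF a ha
        have h8 := ht0 a
        have h9 := ha0 a
        field_simp
      rw [h6]
      refine mul_mem (Subring.subset_closure (Or.inr ?_)) ?_
      · rw [hT', Finset.mem_coe]
        exact Finset.mem_union_left _ (Finset.mem_image_of_mem _ (Finset.mem_univ _))
      · have h7 : Subring.closure (Set.range (algebraMap k0 K) ∪ (T : Set K)) ≤
            (Subring.closure (Set.range (algebraMap k0 K') ∪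
              (T' : Set K'))).comap (algebraMap K K') := by
          rw [Subring.closure_le]
          rintro z (⟨r, rfl⟩ | hz)
          · exact Subring.subset_closure (Or.inl ⟨r, rfl⟩)
          · refine Subring.subset_closure (Or.inr ?_)
            rw [hT', Finset.mem_coe]
            exact Finset.mem_union_right _ (Finset.mem_image_of_mem _ hz)
        exact h7 (hxs a ha j)
  · intro x _ x' _ hxx
    funext j
    exact (algebraMap K K').injective (congrFun hxx j)

end Pool.Agent.TH145.GC
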