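import Pool.Agent.TH145.GH.Ineq

/-!
Vector fields tangent to generic complete intersections.
-/

set_option autoImplicit false

open MvPolynomial Pool.Agent.TH145.GH

namespace Pool.Agent.TH145.GC

variable {K : Type} [Field K] {n : ℕ} {A : Type}

/-- The derivatives of a point. -/
noncomputable def Ev (D : A → (Fin (n + 1) →₀ ℕ) → Derivation ℤ K K) (x : Fin (n + 1) → K) (a : A)
    (I : Fin (n + 1) →₀ ℕ) : Fin (n + 1) → K := fun l => D a I (x l)

/-- The indices of the tangent vector fields. -/
abbrev Ti (n : ℕ) (A : Type) := A × (Fin (n + 1) →₀ ℕ) × Fin (n + 1) × Fin (n + 1)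

/-- The tangent vector fields. -/
noncomputable def tv (dg : A → ℕ) (D : A → (Fin (n + 1) →₀ ℕ) → Derivation ℤ K K)
    (x : Fin (n + 1) → K) (t : Ti n A) : Fin (n + 1) → K :=
  if t.2.1.degree + 1 = dg t.1 then
    x t.2.2.2 • Ev D x t.1 (t.2.1 + Finsupp.single t.2.2.1 1) -
      x t.2.2.1 • Ev D x t.1 (t.2.1 + Finsupp.single t.2.2.2 1) else 0

/-- The position vector and the tangent vector fields. -/
noncomputable def wv (dg : A → ℕ) (D : A → (Fin (n + 1) →₀ ℕ) → Derivation ℤ K K)
    (x : Fin (n + 1) → K) : Option (Ti n A) → Fin (n + 1) → K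
  | none => x
  | some t => tv dg D x t

/-- The derivations are dual to the coefficients of the forms. -/
def Dual (F : A → MvPolynomial (Fin (n + 1)) K) (dg : A → ℕ)
    (D : A → (Fin (n + 1) →₀ ℕ) → Derivation ℤ K K) : Prop :=
  ∀ (a b : A) (I J : Fin (n + 1) →₀ ℕ), I.degree = dg a → J.degree = dg b →
    (a = b → I = J → D a I ((F b).coeff J) = 1) ∧
    ((a ≠ b ∨ I ≠ J) → D a I ((F b).coeff J) = 0)

section

variable {F : A → MvPolynomial (Fin (n + 1)) K} {dg : A → ℕ}
  {D : A → (Fin (n + 1) →₀ ℕ) → Derivation ℤ K K}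

theorem dF_Ev [DecidableEq A] (hF : ∀ a, (F a).IsHomogeneous (dg a)) (hD : Dual F dg D)
    (x : Fin (n + 1) → K) {a b : A} {I : Fin (n + 1) →₀ ℕ} (hI : I.degree = dg a) :
    dF (F b) x (Ev D x a I) = D a I (eval x (F b)) - if a = b then mon x I else 0 := by
  have h1 := chainM (D a I) x (F b)
  have h2 : ∑ u ∈ (F b).support, D a I ((F b).coeff u) * mon x u =
      if a = b then mon x I else 0 := by
    have hs : ∀ u ∈ (F b).support, u.degree = dg b := fun u hu => deg_of_mem (hF b) hu
    split_ifs with hab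
    · subst hab
      rw [Finset.sum_eq_single I]
      · rw [(hD a a I I hI hI).1 rfl rfl, one_mul]
      · intro u hu hne
        rw [(hD a a I u hI (hs u hu)).2 (Or.inr hne.symm), zero_mul]
      · intro h
        exfalso
        have := (hD a a I I hI hI).1 rfl rfl
        rw [notMem_support_iff.1 h, map_zero] at this
        exact zero_ne_one this
    · refine Finset.sum_eq_zero fun u hu => ?_
      rw [(hD a b I u hI (hs u hu)).2 (Or.inl hab), zero_mul]
  rw [h2] at h1
  unfold dF Ev
  rw [h1]
  ring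

theorem dF_sub (G : MvPolynomial (Fin (n + 1)) K) (x y z : Fin (n + 1) → K) :
    dF G x (y - z) = dF G x y - dF G x z := by
  rw [sub_eq_add_neg, dF_add, ← neg_one_smul K z, dF_smul]
  ring

theorem dF_self {G : MvPolynomial (Fin (n + 1)) K} {d : ℕ} (hG : G.IsHomogeneous d)
    (x : Fin (n + 1) → K) : dF G x x = d * eval x G := by
  have h5 := congrArg (eval x) hG.sum_X_mul_pderiv
  rw [map_sum, nsmul_eq_mul, map_mul, map_natCast] at h5
  rw [← h5]
  unfold dF
  refine Finset.sum_congr rfl fun i _ => ?_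
  rw [map_mul, eval_X]
  ring

theorem dF_tv (hF : ∀ a, (F a).IsHomogeneous (dg a)) (hD : Dual F dg D)
    (x : Fin (n + 1) → K) (b : A) (t : Ti n A) (ht : t.2.1.degree + 1 = dg t.1) :
    dF (F b) x (tv dg D x t) =
      x t.2.2.2 * D t.1 (t.2.1 + Finsupp.single t.2.2.1 1) (eval x (F b)) -
      x t.2.2.1 * D t.1 (t.2.1 + Finsupp.single t.2.2.2 1) (eval x (F b)) := by
  classical
  rw [tv, if_pos ht, dF_sub, dF_smul, dF_smul, dF_Ev hF hD x (by
    rw [map_add, Finsupp.degree_single, ht]), dF_Ev hF hD x (by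
    rw [map_add, Finsupp.degree_single, ht]), mon_add, mon_add, mon_single, mon_single]
  split_ifs <;> ring

/-- The derivatives, modulo the tangent vectors. -/
theorem Ev_mod (dg : A → ℕ) (D : A → (Fin (n + 1) →₀ ℕ) → Derivation ℤ K K)
    (x : Fin (n + 1) → K) (e : Fin (n + 1)) (he : x e ≠ 0) (a : A) :
    ∀ (N : ℕ) (J : Fin (n + 1) →₀ ℕ), J.degree = dg a → J.degree - J e = N →
      Ev D x a J - (mon x J / x e ^ dg a) • Ev D x a (Finsupp.single e (dg a)) ∈
        Submodule.span K (Set.range (wv dg D x)) := by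
  classical
  obtain ⟨W, hW⟩ : ∃ W, W = Submodule.span K (Set.range (wv dg D x)) := ⟨_, rfl⟩
  obtain ⟨E, hE⟩ : ∃ E : (Fin (n + 1) →₀ ℕ) → Fin (n + 1) → K, ∀ I, E I = Ev D x a I :=
    ⟨_, fun _ => rfl⟩
  obtain ⟨d, hd⟩ : ∃ d, d = dg a := ⟨_, rfl⟩
  have hgW : ∀ o, wv dg D x o ∈ W := fun o => hW ▸ Submodule.subset_span ⟨o, rfl⟩
  simp only [← hE, ← hW, ← hd]
  intro N
  induction N with
  | zero =>
    intro J hJ hN
    have h2 : J = Finsupp.single e d := by
      have h3 : ∑ i, J i = d := by rw [← hJ, Finsupp.degree_eq_sum]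
      have h4 : J e = d := by
        have h5 := Finset.single_le_sum (f := fun i => J i) (fun _ _ => Nat.zero_le _)
          (Finset.mem_univ e)
        omega
      ext i
      by_cases hi : i = e
      · rw [hi, Finsupp.single_eq_same, h4]
      · rw [Finsupp.single_eq_of_ne hi]
        have h5 := Finset.add_sum_erase Finset.univ (fun i => J i) (Finset.mem_univ e)
        have h6 := Finset.single_le_sum (f := fun i => J i) (fun _ _ => Nat.zero_le _)
          (Finset.mem_erase.2 ⟨hi, Finset.mem_univ i⟩)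
        omega
    rw [h2, mon_single, div_self (pow_ne_zero _ he), one_smul, sub_self]
    exact zero_mem _
  | succ N ih =>
    intro J hJ hN
    obtain ⟨i, hi, hJi⟩ : ∃ i, i ≠ e ∧ J i ≠ 0 := by
      by_contra hcon
      push Not at hcon
      have h3 : ∑ i, J i = J e := by
        rw [Finset.sum_eq_single e]
        · intro j _ hj; exact hcon j hj
        · intro h; exact absurd (Finset.mem_univ e) h
      rw [Finsupp.degree_eq_sum] at hN
      omega
    obtain ⟨M, hM⟩ : ∃ M : Fin (n + 1) →₀ ℕ, J = M + Finsupp.single i 1 :=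
      ⟨J - Finsupp.single i 1, by
        rw [tsub_add_cancel_of_le]
        rw [Finsupp.single_le_iff]
        omega⟩
    have hMd : M.degree + 1 = d := by
      rw [← hJ, hM, map_add, Finsupp.degree_single]
    have h2 := hgW (some (a, M, i, e))
    have h3 : wv dg D x (some (a, M, i, e)) =
        x e • E (M + Finsupp.single i 1) - x i • E (M + Finsupp.single e 1) := by
      rw [hE, hE]
      simp only [wv, tv]
      rw [if_pos (by rw [hMd, hd])]
    rw [h3] at h2
    have h4 := ih (M + Finsupp.single e 1) (by rw [map_add, Finsupp.degree_single, hMd]) (by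
      have h5 : J e = M e := by
        rw [hM, Finsupp.add_apply, Finsupp.single_eq_of_ne hi.symm, add_zero]
      rw [map_add, Finsupp.degree_single, hMd, Finsupp.add_apply, Finsupp.single_eq_same]
      omega)
    have h5 : E J - (mon x J / x e ^ d) • E (Finsupp.single e d) =
        (x e)⁻¹ • (x e • E (M + Finsupp.single i 1) - x i • E (M + Finsupp.single e 1)) +
        (x i / x e) • (E (M + Finsupp.single e 1) -
          (mon x (M + Finsupp.single e 1) / x e ^ d) • E (Finsupp.single e d)) := by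
      rw [hM, mon_add, mon_add, mon_single, mon_single, pow_one, pow_one]
      funext l
      simp only [Pi.add_apply, Pi.sub_apply, Pi.smul_apply, smul_eq_mul]
      field_simp
      ring
    rw [h5]
    exact add_mem (Submodule.smul_mem _ _ h2) (Submodule.smul_mem _ _ h4)

/-- The rows: the tangent vector fields and the derivatives with the exponents `I`. -/
noncomputable def vv (dg : A → ℕ) (D : A → (Fin (n + 1) →₀ ℕ) → Derivation ℤ K K)
    (x : Fin (n + 1) → K) (I : A → Fin (n + 1) →₀ ℕ) : Option (Ti n A) ⊕ A → Fin (n + 1) → K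
  | Sum.inl o => wv dg D x o
  | Sum.inr a => Ev D x a (I a)

/-- The degrees of the rows. -/
def rd {n : ℕ} {A : Type} : Option (Ti n A) ⊕ A → ℕ
  | Sum.inl none => 1
  | Sum.inl (some _) => 2
  | Sum.inr _ => 1

theorem vv_scale (dg : A → ℕ) (D : A → (Fin (n + 1) →₀ ℕ) → Derivation ℤ K K)
    (x : Fin (n + 1) → K) (lam : K) (I : A → Fin (n + 1) →₀ ℕ) :
    ∃ s : Option (Ti n A) ⊕ A → K, s (Sum.inl none) = 0 ∧ ∀ i, vv dg D (lam • x) I i =
      lam ^ rd i • vv dg D x I i + s i • x := by
  have hE : ∀ a J, Ev D (lam • x) a J = lam • Ev D x a J + D a J lam • x := by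
    intro a J
    funext l
    simp only [Ev, Pi.smul_apply, Pi.add_apply, smul_eq_mul]
    rw [(D a J).leibniz]
    simp only [smul_eq_mul]
    ring
  refine ⟨fun i => match i with
    | Sum.inl none => 0
    | Sum.inl (some t) => if t.2.1.degree + 1 = dg t.1 then
        lam * (x t.2.2.2 * D t.1 (t.2.1 + Finsupp.single t.2.2.1 1) lam -
          x t.2.2.1 * D t.1 (t.2.1 + Finsupp.single t.2.2.2 1) lam) else 0
    | Sum.inr a => D a (I a) lam, rfl, ?_⟩
  rintro ((_ | t) | a)
  · simp [vv, wv, rd]
  · simp only [vv, wv, rd, tv]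
    split_ifs
    · rw [hE, hE]
      funext l
      simp only [Pi.add_apply, Pi.sub_apply, Pi.smul_apply, smul_eq_mul]
      ring
    · simp
  · simp only [vv, rd, pow_one]
    exact hE a (I a)

end

end Pool.Agent.TH145.GC
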